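import Pool.Agent.TH577.UA.Final
set_option autoImplicit false

/-!
The number of the bases without broken circuits and of internal activity zero of an arrangement in
general position.
-/

namespace Pool.Agent.K7.H1.AR

open Pool.Agent.TH826.GA (cm vtx)

open Pool.Agent.TH577.UA (Ix Nbc)

variable {K : Type*} [Field K] {d m : ℕ}

theorem card_Ix {c : Fin (m + 1) → Fin (d + 1) → K} {a : Fin (m + 1) → K}
    (h1 : ∀ T : Fin (d + 1) → Fin (m + 1), Function.Injective T → (cm c T).det ≠ 0)
    (h2 : ∀ T : Fin (d + 1) → Fin (m + 1), Function.Injective T → ∀ e, (∀ j, T j ≠ e) →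
      ∑ j, c e j * vtx c a T j ≠ a e) : Nat.card (Ix c a) = m.choose (d + 1) := by
  classical
  have hnbc : ∀ s : {s : Finset (Fin m) // s.card = d + 1},
      Nbc c a fun i => (s.1.orderEmbOfFin s.2 i).castSucc := by
    intro s
    have hmono : StrictMono fun i => (s.1.orderEmbOfFin s.2 i).castSucc := fun i j hij => by
      rw [Fin.castSucc_lt_castSucc_iff]
      exact (s.1.orderEmbOfFin s.2).strictMono hij
    refine ⟨hmono, h1 _ hmono.injective, fun i => ⟨Fin.last m, Fin.castSucc_lt_last _, ?_⟩,
      fun e he hv => absurd hv (h2 _ hmono.injective e he)⟩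
    refine h1 _ ?_
    intro j k hjk
    by_cases hj : j = i
    · by_cases hk : k = i
      · rw [hj, hk]
      · rw [hj, Function.update_self, Function.update_of_ne hk] at hjk
        exact absurd hjk.symm (Fin.castSucc_lt_last _).ne
    · by_cases hk : k = i
      · rw [hk, Function.update_self, Function.update_of_ne hj] at hjk
        exact absurd hjk (Fin.castSucc_lt_last _).ne
      · rw [Function.update_of_ne hj, Function.update_of_ne hk] at hjk
        exact hmono.injective hjk
  set Ψ : {s : Finset (Fin m) // s.card = d + 1} → Ix c a := fun s => ⟨_, hnbc s⟩ with hΨ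
  have hb : Function.Bijective Ψ := by
    constructor
    · intro s s' h
      have h3 : (fun i => (s.1.orderEmbOfFin s.2 i).castSucc) =
          fun i => (s'.1.orderEmbOfFin s'.2 i).castSucc := congrArg Subtype.val h
      refine Subtype.ext ?_
      have h4 : (s.1.orderEmbOfFin s.2 : Fin (d + 1) → Fin m) = s'.1.orderEmbOfFin s'.2 :=
        funext fun i => Fin.castSucc_injective m (congrFun h3 i)
      have h5 := Finset.range_orderEmbOfFin s.1 s.2
      have h6 := Finset.range_orderEmbOfFin s'.1 s'.2
      rw [h4, h6] at h5
      exact_mod_cast h5.symm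
    · intro T
      have hlt : ∀ i, T.1 i ≠ Fin.last m := by
        intro i
        obtain ⟨e, he, -⟩ := T.2.2.2.1 i
        exact (he.trans_le (Fin.le_last e)).ne
      set t : Fin (d + 1) → Fin m := fun i => (T.1 i).castPred (hlt i) with ht
      have htm : StrictMono t := fun i j hij => by
        have := T.2.1 hij
        simp only [ht]
        rwa [Fin.castPred_lt_castPred_iff]
      set s : Finset (Fin m) := Finset.univ.image t with hs
      have hsc : s.card = d + 1 := by
        rw [hs, Finset.card_image_of_injective _ htm.injective, Finset.card_univ,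
          Fintype.card_fin]
      refine ⟨⟨s, hsc⟩, Subtype.ext ?_⟩
      funext i
      have h3 := Finset.orderEmbOfFin_unique hsc
        (fun i => Finset.mem_image.2 ⟨i, Finset.mem_univ i, rfl⟩) htm
      show (s.orderEmbOfFin hsc i).castSucc = T.1 i
      rw [← h3]
      exact Fin.castSucc_castPred _ _
  rw [← Nat.card_eq_of_bijective Ψ hb, Nat.card_eq_fintype_card, Fintype.card_finset_len,
    Fintype.card_fin]

end Pool.Agent.K7.H1.AR
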