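import Pool.Agent.K7.H1.AR.Def
set_option autoImplicit false

/-!
The coordinate ring is a domain.
-/

namespace Pool.Agent.K7.H1.AR

open MvPolynomial

open Pool.Agent.TH826.GA (cm lf al be vtx)

variable {K : Type*} [Field K] {d m s B : ℕ} (F : Fib K d m s B) (lam : K)

section nonsq

/-- the substitution `y = 1` -/
noncomputable def e1 (K : Type*) [Field K] (d s : ℕ) :
    MvPolynomial (Fin (d + 1) ⊕ Fin s) K →+* MvPolynomial (Fin (d + 1)) K :=
  (aeval (Sum.elim X fun _ => 1)).toRingHom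

theorem e1_inl (j : Fin (d + 1)) : e1 K d s (X (Sum.inl j)) = X j := by
  show aeval _ (X (Sum.inl j)) = _
  rw [aeval_X]
  rfl

theorem e1_inr (i : Fin s) : e1 K d s (X (Sum.inr i)) = 1 := by
  show aeval _ (X (Sum.inr i)) = _
  rw [aeval_X]
  rfl

theorem e1_P (k : Fin (B + 1)) : e1 K d s (F.P k) = 1 := by
  unfold Fib.P
  rw [map_prod]
  refine Finset.prod_eq_one fun i _ => ?_
  rw [map_pow, e1_inr, one_pow]

theorem e1_S (k : Fin (B + 1)) :
    e1 K d s (F.S k) = ((Finset.univ.filter fun i => F.b i = k).card : ℕ) := by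
  unfold Fib.S
  rw [map_sum, Finset.sum_congr rfl fun i _ => e1_inr i]
  simp

theorem e1_Q : e1 K d s F.Q =
    ((∏ k : Fin B, ((Finset.univ.filter fun i => F.b i = k.succ).card + 1) : ℕ) :
      MvPolynomial (Fin (d + 1)) K) := by
  unfold Fib.Q
  rw [map_prod, Nat.cast_prod]
  refine Finset.prod_congr rfl fun k _ => ?_
  rw [map_add, map_mul, e1_S, e1_P, mul_one, map_one, Nat.cast_add, Nat.cast_one]

theorem e1_P' : e1 K d s F.P' = 1 := by
  unfold Fib.P'
  rw [map_prod]
  exact Finset.prod_eq_one fun k _ => e1_P F k.succ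

theorem e1_ph : e1 K d s (F.ph lam) = F.Phi lam := by
  unfold Fib.ph
  show aeval (Sum.elim X fun _ => 1) (rename Sum.inl (F.Phi lam)) = _
  rw [aeval_rename, Sum.elim_comp_inl]
  exact aeval_X_left_apply _

/-- the discriminant -/
noncomputable def Fib.dis : MvPolynomial (Fin (d + 1) ⊕ Fin s) K :=
  F.M lam ^ 2 - 4 * (F.P 0 * F.Q) * F.Q

variable {F lam}

/-- the polynomial `Φ` is not constant -/
theorem Phi_ne_C (hR : ∃ T : Fin (d + 1) → Fin (m + 1), (cm F.c T).det ≠ 0)
    (hΦ : F.Phi lam ≠ 0) (x : K) : F.Phi lam ≠ C x := by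
  intro h
  obtain ⟨T, hT⟩ := hR
  have h1 : eval (vtx F.c F.a T) (F.Phi lam) = 0 := by
    unfold Fib.Phi
    rw [map_mul, map_mul, map_prod, Finset.prod_eq_zero (Finset.mem_univ (T 0)), mul_zero,
      mul_zero]
    rw [map_pow]
    refine pow_eq_zero_iff (Nat.succ_ne_zero _) |>.2 ?_
    unfold lf
    rw [map_sub, map_sum]
    simp only [map_mul, eval_C, eval_X]
    rw [Pool.Agent.TH826.GA.eval_vtx]
    have h2 := Pool.Agent.TH826.GA.be_T (a := F.a) T hT 0
    unfold be at h2
    exact h2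
  rw [h, eval_C] at h1
  rw [h1, map_zero] at h
  exact hΦ h

theorem nonsq [CharZero K] (hR : ∃ T : Fin (d + 1) → Fin (m + 1), (cm F.c T).det ≠ 0)
    (hΦ : F.Phi lam ≠ 0) (G : MvPolynomial (Fin (d + 1) ⊕ Fin s) K) : G ^ 2 ≠ F.dis lam := by
  intro h
  have h1 := congrArg (e1 K d s) h
  unfold Fib.dis Fib.M at h1
  simp only [map_pow, map_sub, map_mul, map_ofNat, e1_P, e1_P', e1_ph, mul_one, one_mul,
    e1_Q] at h1
  set q : ℕ := ∏ k : Fin B, ((Finset.univ.filter fun i => F.b i = k.succ).card + 1) with hq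
  have hq0 : (q : K) ≠ 0 := by
    rw [Nat.cast_ne_zero, hq]
    exact Finset.prod_ne_zero_iff.2 fun k _ => Nat.succ_ne_zero _
  set n : ℕ := (Finset.univ.filter fun i => F.b i = 0).card with hn
  rw [e1_S, ← hn] at h1
  set g := e1 K d s G with hg
  set Ψ : MvPolynomial (Fin (d + 1)) K := n * q - F.Phi lam with hΨ
  have h2 : (Ψ - g) * (Ψ + g) = C (4 * (q : K) ^ 2) := by
    have h3 : (C (4 * (q : K) ^ 2) : MvPolynomial (Fin (d + 1)) K) = 4 * (q : ℕ) ^ 2 := by
      rw [map_mul, map_pow, map_natCast, map_ofNat]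
    rw [h3]
    linear_combination -h1
  have hunit : IsUnit (C (4 * (q : K) ^ 2) : MvPolynomial (Fin (d + 1)) K) :=
    (isUnit_iff_ne_zero.2 (mul_ne_zero (by norm_num : (4 : K) ≠ 0) (pow_ne_zero _ hq0))).map C
  rw [← h2] at hunit
  have h4 := isUnit_of_mul_isUnit_left hunit
  have h5 := isUnit_of_mul_isUnit_right hunit
  rw [MvPolynomial.isUnit_iff_eq_C_of_isReduced] at h4 h5
  obtain ⟨u, -, hu⟩ := h4
  obtain ⟨u', -, hu'⟩ := h5
  refine Phi_ne_C hR hΦ (n * q - (u + u') / 2) ?_
  have h6 : 2 * Ψ = C (u + u') := by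
    rw [map_add, ← hu, ← hu']
    ring
  have h7 : Ψ = C ((u + u') / 2) := by
    have h8 : (C (2 : K) : MvPolynomial (Fin (d + 1)) K) = 2 := map_ofNat C 2
    have h9 : (2 : MvPolynomial (Fin (d + 1)) K) ≠ 0 := two_ne_zero
    apply mul_left_cancel₀ h9
    rw [h6, ← h8, ← map_mul]
    congr 1
    field_simp
  have h10 : F.Phi lam = n * q - Ψ := by
    rw [hΨ]
    ring
  rw [h10, h7, map_sub, map_mul, map_natCast, map_natCast]

end nonsq

section rep

theorem Fib.isUnit_P (k : Fin (B + 1)) : IsUnit (F.io lam (F.P k)) := by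
  unfold Fib.P
  rw [map_prod]
  refine IsUnit.prod_iff.2 fun i _ => ?_
  rw [map_pow, F.io_X]
  exact (F.isUnit_y lam i).pow _

theorem Fib.isUnit_Q : IsUnit (F.io lam F.Q) := by
  have h := F.eqn_zero lam
  have h1 : F.io lam F.Q * (F.io lam (F.P 0) * F.co lam (Sum.inr (Sum.inr false)) ^ 2 +
      F.io lam (F.P 0) * F.io lam (F.S 0) * F.co lam (Sum.inr (Sum.inr false)) + 1) =
      F.io lam (F.P 0) * F.ix lam (F.Phi lam) * F.io lam F.P' *
        F.co lam (Sum.inr (Sum.inr false)) := by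
    linear_combination h
  have h2 : IsUnit (F.io lam F.P') := by
    unfold Fib.P'
    rw [map_prod]
    exact IsUnit.prod_iff.2 fun k _ => F.isUnit_P lam k.succ
  refine isUnit_of_mul_isUnit_left (y := F.io lam (F.P 0) *
    F.co lam (Sum.inr (Sum.inr false)) ^ 2 + F.io lam (F.P 0) * F.io lam (F.S 0) *
      F.co lam (Sum.inr (Sum.inr false)) + 1) ?_
  rw [h1]
  exact (((F.isUnit_P lam 0).mul (F.isUnit_Phi lam)).mul h2).mul (F.isUnit_z lam)

/-- the product of `P_0`, `Q`, the `y_i` and `Φ` -/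
noncomputable def Fib.hh : MvPolynomial (Fin (d + 1) ⊕ Fin s) K :=
  F.P 0 * F.Q * (yy K d s * F.ph lam)

theorem Fib.isUnit_hh : IsUnit (F.io lam (F.hh lam)) := by
  unfold Fib.hh
  rw [map_mul, map_mul, map_mul, F.io_ph]
  exact ((F.isUnit_P lam 0).mul (F.isUnit_Q lam)).mul ((F.isUnit_yy lam).mul (F.isUnit_Phi lam))

theorem Fib.exists_rep (x : F.FRing lam) :
    ∃ (N : ℕ) (α β : MvPolynomial (Fin (d + 1) ⊕ Fin s) K), x * F.io lam (F.hh lam) ^ N =
      F.io lam α + F.io lam β * F.co lam (Sum.inr (Sum.inr false)) := by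
  obtain ⟨p, rfl⟩ := F.mkF_surjective lam x
  induction p using MvPolynomial.induction_on with
  | C c =>
    refine ⟨0, C c, 0, ?_⟩
    rw [pow_zero, mul_one, map_zero, zero_mul, add_zero]
    unfold Fib.io inc
    rw [RingHom.comp_apply]
    congr 1
    exact (rename_C _ _).symm
  | add p q hp hq =>
    obtain ⟨N1, α1, β1, h1⟩ := hp
    obtain ⟨N2, α2, β2, h2⟩ := hq
    refine ⟨N1 + N2, α1 * F.hh lam ^ N2 + α2 * F.hh lam ^ N1,
      β1 * F.hh lam ^ N2 + β2 * F.hh lam ^ N1, ?_⟩
    simp only [map_add, map_mul, map_pow, pow_add]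
    linear_combination F.io lam (F.hh lam) ^ N2 * h1 + F.io lam (F.hh lam) ^ N1 * h2
  | mul_X p i hp =>
    obtain ⟨N, α, β, h⟩ := hp
    rw [map_mul]
    have h0 : F.mkF lam (X i) = F.co lam i := rfl
    rw [h0]
    set z := F.co lam (Sum.inr (Sum.inr false)) with hz
    have hq := F.eqn_zero lam
    have ht := F.eqt_zero lam
    rw [← hz] at hq ht
    have hhh : F.io lam (F.hh lam) = F.io lam (F.P 0) * F.io lam F.Q *
        (F.io lam (yy K d s) * F.ix lam (F.Phi lam)) := by
      unfold Fib.hh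
      rw [map_mul, map_mul, map_mul, F.io_ph]
    have hM : F.io lam (F.M lam) = F.io lam (F.P 0) * (F.io lam (F.S 0) * F.io lam F.Q -
        F.ix lam (F.Phi lam) * F.io lam F.P') := by
      unfold Fib.M
      rw [map_mul, map_sub, map_mul, map_mul, F.io_ph]
    rcases i with j | i | b
    · refine ⟨N, α * X (Sum.inl j), β * X (Sum.inl j), ?_⟩
      rw [map_mul, map_mul, F.io_X]
      show _ = _ * F.co lam (Sum.inl j) + _ * F.co lam (Sum.inl j) * z
      linear_combination F.co lam (Sum.inl j) * h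
    · refine ⟨N, α * X (Sum.inr i), β * X (Sum.inr i), ?_⟩
      rw [map_mul, map_mul, F.io_X]
      show _ = _ * F.co lam (Sum.inr (Sum.inl i)) + _ * F.co lam (Sum.inr (Sum.inl i)) * z
      linear_combination F.co lam (Sum.inr (Sum.inl i)) * h
    · cases b with
      | false =>
        rw [← hz]
        refine ⟨N + 1, -(β * F.Q * (yy K d s * F.ph lam)),
          α * F.hh lam - β * F.M lam * (yy K d s * F.ph lam), ?_⟩
        have e : F.io lam (-(β * F.Q * (yy K d s * F.ph lam))) +
            F.io lam (α * F.hh lam - β * F.M lam * (yy K d s * F.ph lam)) * z =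
            -(F.io lam β * F.io lam F.Q * (F.io lam (yy K d s) * F.ix lam (F.Phi lam))) +
            (F.io lam α * F.io lam (F.hh lam) - F.io lam β * (F.io lam (F.P 0) *
              (F.io lam (F.S 0) * F.io lam F.Q - F.ix lam (F.Phi lam) * F.io lam F.P')) *
              (F.io lam (yy K d s) * F.ix lam (F.Phi lam))) * z := by
          rw [← hM, ← F.io_ph]
          simp only [map_neg, map_mul, map_sub]
        rw [pow_succ, e]
        linear_combination (z * F.io lam (F.hh lam)) * h +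
          F.io lam β * (F.io lam (yy K d s) * F.ix lam (F.Phi lam)) * hq +
          F.io lam β * z ^ 2 * hhh
      | true =>
        refine ⟨N + 1, β * F.P 0 * F.Q - F.P 0 * F.M lam * α, -(F.P 0 ^ 2 * F.Q * α), ?_⟩
        set t := F.co lam (Sum.inr (Sum.inr true)) with htdef
        have e : F.io lam (β * F.P 0 * F.Q - F.P 0 * F.M lam * α) +
            F.io lam (-(F.P 0 ^ 2 * F.Q * α)) * z =
            (F.io lam β * F.io lam (F.P 0) * F.io lam F.Q - F.io lam (F.P 0) * (F.io lam (F.P 0) *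
              (F.io lam (F.S 0) * F.io lam F.Q - F.ix lam (F.Phi lam) * F.io lam F.P')) *
              F.io lam α) - F.io lam (F.P 0) ^ 2 * F.io lam F.Q * F.io lam α * z := by
          rw [← hM]
          simp only [map_neg, map_mul, map_sub, map_pow]
          ring
        rw [pow_succ, e]
        linear_combination (t * F.io lam (F.hh lam)) * h +
          (F.io lam α + F.io lam β * z) * t * hhh +
          F.io lam α * F.io lam (F.P 0) * t *
            (F.io lam (yy K d s) * F.ix lam (F.Phi lam)) * hq +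
          (F.io lam β * F.io lam (F.P 0) * F.io lam F.Q - F.io lam α * F.io lam (F.P 0) *
            (F.io lam (F.P 0) * F.io lam F.Q * z + F.io lam (F.P 0) *
              (F.io lam (F.S 0) * F.io lam F.Q - F.ix lam (F.Phi lam) * F.io lam F.P'))) * ht

end rep

theorem alg1 {Ω : Type*} [Field Ω] (h2 : (2 : Ω) ≠ 0) {a b q x : Ω} (ha : a ≠ 0)
    (h : x ^ 2 = b ^ 2 - 4 * a * q) :
    a * ((x - b) / (2 * a)) ^ 2 + b * ((x - b) / (2 * a)) + q = 0 := by
  field_simp
  linear_combination h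

variable {F lam}

theorem eval_zero_P_S (k : Fin (B + 1)) : constantCoeff (F.S k) = 0 := by
  unfold Fib.S
  rw [map_sum]
  exact Finset.sum_eq_zero fun i _ => constantCoeff_X _ _

theorem Q_ne_zero : F.Q ≠ 0 := by
  intro h
  have h1 := congrArg constantCoeff h
  unfold Fib.Q at h1
  rw [map_prod, map_zero] at h1
  have h2 : ∀ k : Fin B, constantCoeff (F.S k.succ * F.P k.succ + 1) = 1 := by
    intro k
    rw [map_add, map_mul, eval_zero_P_S, zero_mul, map_one, zero_add]
  rw [Finset.prod_congr rfl fun k _ => h2 k, Finset.prod_const_one] at h1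
  exact one_ne_zero h1

theorem P_ne_zero (k : Fin (B + 1)) : F.P k ≠ 0 := by
  unfold Fib.P
  exact Finset.prod_ne_zero_iff.2 fun i _ => pow_ne_zero _ (X_ne_zero _)

theorem yy_ne_zero : yy K d s ≠ 0 := by
  unfold yy
  exact Finset.prod_ne_zero_iff.2 fun i _ => X_ne_zero _

theorem ph_ne_zero (hΦ : F.Phi lam ≠ 0) : F.ph lam ≠ 0 := by
  unfold Fib.ph
  intro h
  exact hΦ (rename_injective _ Sum.inl_injective (h.trans (map_zero _).symm))

/-- The coordinate ring is a domain. -/
theorem isDomain_FRing [CharZero K] (hR : ∃ T : Fin (d + 1) → Fin (m + 1), (cm F.c T).det ≠ 0)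
    (hΦ : F.Phi lam ≠ 0) : IsDomain (F.FRing lam) := by
  classical
  set R := MvPolynomial (Fin (d + 1) ⊕ Fin s) K with hRdef
  set F0 := FractionRing R
  set Ω := AlgebraicClosure F0
  have : CharZero F0 := charZero_of_injective_algebraMap (IsFractionRing.injective R F0)
  set j : R →+* Ω := (algebraMap F0 Ω).comp (algebraMap R F0) with hj
  have hjinj : Function.Injective j := (algebraMap F0 Ω).injective.comp
    (IsFractionRing.injective R F0)
  have hj0 : ∀ x : R, x ≠ 0 → j x ≠ 0 := fun x hx h => hx (hjinj (h.trans (map_zero j).symm))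
  obtain ⟨w, hw⟩ := IsAlgClosed.exists_pow_nat_eq (j (F.dis lam)) (by norm_num : 0 < 2)
  have hwd : w ^ 2 = j (F.M lam) ^ 2 - 4 * j (F.P 0 * F.Q) * j F.Q := by
    rw [hw]
    unfold Fib.dis
    rw [map_sub, map_pow, map_mul, map_mul, map_ofNat]
  have h2 : (2 : Ω) ≠ 0 := two_ne_zero
  have ha : j (F.P 0 * F.Q) ≠ 0 := hj0 _ (mul_ne_zero (P_ne_zero 0) Q_ne_zero)
  set ζ : Ω := (w - j (F.M lam)) / (2 * j (F.P 0 * F.Q)) with hζ
  have hroot : j (F.P 0 * F.Q) * ζ ^ 2 + j (F.M lam) * ζ + j F.Q = 0 := alg1 h2 ha hwd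
  have hζ0 : ζ ≠ 0 := by
    intro h
    rw [h] at hroot
    exact hj0 _ (Q_ne_zero (F := F)) (by linear_combination hroot)
  have hyp : j (yy K d s * F.ph lam) ≠ 0 := hj0 _ (mul_ne_zero yy_ne_zero (ph_ne_zero hΦ))
  set τ : Ω := (ζ * j (yy K d s * F.ph lam))⁻¹ with hτ
  set Φ0 : MvPolynomial (Var d s) K →+* Ω :=
    eval₂Hom (j.comp C) (Sum.elim (fun i => j (X (Sum.inl i)))
      (Sum.elim (fun i => j (X (Sum.inr i))) fun t => bif t then τ else ζ)) with hΦ0
  have hinc : ∀ p : R, Φ0 (inc K d s p) = j p := by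
    intro p
    show Φ0 (rename (iv d s) p) = j p
    induction p using MvPolynomial.induction_on with
    | C c =>
      rw [rename_C, hΦ0]
      simp
    | add p q hp hq => simp only [map_add, hp, hq]
    | mul_X p i hp =>
      rw [map_mul, map_mul, hp, map_mul, rename_X]
      congr 1
      rcases i with i | i
      · simp [hΦ0, iv]
      · simp [hΦ0, iv]
  have hz : Φ0 (X (Sum.inr (Sum.inr false))) = ζ := by simp [hΦ0]
  have ht : Φ0 (X (Sum.inr (Sum.inr true))) = τ := by simp [hΦ0]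
  have hk1 : Φ0 (F.eqt lam) = 0 := by
    unfold Fib.eqt
    rw [map_sub, map_mul, map_mul, map_one, hinc, hz, ht, hτ,
      inv_mul_cancel₀ (mul_ne_zero hζ0 hyp), sub_self]
  have hk2 : Φ0 (F.eqn lam) = 0 := by
    unfold Fib.eqn
    rw [map_add Φ0, map_add Φ0, map_mul Φ0, map_mul Φ0, map_pow Φ0, hinc, hinc, hinc, hz]
    exact hroot
  set Ψ : F.FRing lam →+* Ω := F.lift lam Φ0 hk1 hk2 with hΨ
  have hΨio : ∀ p, Ψ (F.io lam p) = j p := by
    intro p
    rw [← hinc]
    exact F.lift_mkF lam _ _ _ _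
  have hΨz : Ψ (F.co lam (Sum.inr (Sum.inr false))) = ζ := by
    rw [← hz]
    exact F.lift_mkF lam _ _ _ _
  have hinj : Function.Injective Ψ := by
    rw [injective_iff_map_eq_zero]
    intro x hx
    obtain ⟨N, α, β, h⟩ := F.exists_rep lam x
    have h3 : j α + j β * ζ = 0 := by
      have h4 := congrArg Ψ h
      rw [map_mul, hx, zero_mul, map_add, map_mul, hΨio, hΨio, hΨz] at h4
      exact h4.symm
    have hβ : β = 0 := by
      by_contra hβ
      have h5 := hj0 β hβ
      -- the root is a fraction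
      set u : F0 := -(algebraMap R F0 α) / algebraMap R F0 β with hu
      have hu1 : algebraMap F0 Ω u = ζ := by
        rw [hu, map_div₀, map_neg]
        have h6 : algebraMap F0 Ω (algebraMap R F0 β) ≠ 0 := h5
        rw [div_eq_iff h6]
        have h7 : algebraMap F0 Ω (algebraMap R F0 α) + algebraMap F0 Ω (algebraMap R F0 β) * ζ =
          0 := h3
        linear_combination -h7
      set x0 : F0 := 2 * algebraMap R F0 (F.P 0 * F.Q) * u + algebraMap R F0 (F.M lam) with hx0
      have hx1 : algebraMap F0 Ω x0 = w := by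
        rw [hx0, map_add, map_mul, map_mul, map_ofNat, hu1]
        show 2 * j (F.P 0 * F.Q) * ζ + j (F.M lam) = w
        rw [hζ, mul_div_cancel₀ _ (mul_ne_zero h2 ha)]
        ring
      have hx2 : x0 ^ 2 = algebraMap R F0 (F.dis lam) := by
        apply (algebraMap F0 Ω).injective
        rw [map_pow, hx1, hw]
        rfl
      have hint : IsIntegral R (x0 ^ 2) := by
        rw [hx2]
        exact isIntegral_algebraMap
      obtain ⟨G, hG⟩ := IsIntegrallyClosed.exists_algebraMap_eq_of_isIntegral_pow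
        (by norm_num : 0 < 2) hint
      refine nonsq hR hΦ G ?_
      apply IsFractionRing.injective R F0
      rw [map_pow, hG, hx2]
    rw [hβ, map_zero, zero_mul, add_zero] at h3
    have hα : α = 0 := hjinj (h3.trans (map_zero j).symm)
    rw [hα, hβ, map_zero, zero_mul, add_zero] at h
    exact ((F.isUnit_hh lam).pow N).mul_left_eq_zero.1 h
  exact hinj.isDomain Ψ

end Pool.Agent.K7.H1.AR
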