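import Pool.Agent.K7.H1.AR.Clr
set_option autoImplicit false

/-!
Arbitrary arrangements of hyperplanes over number fields, at discrete valuations: the entries of the
symbols of the bases.
-/

namespace Pool.Agent.K7.H1.AR

open scoped WithZero

open Pool.Agent.TH826.MK (KQ symb unitPart)

open Pool.Agent.TH826.GA (cm lf al be ku coe_ku)

open Pool.Agent.TH577.UA

section clr

variable {K : Type*} [Field K] {d m : ℕ}

theorem exists_den [NumberField K] (s : Finset K) :
    ∃ D : ℕ, D ≠ 0 ∧ ∀ x ∈ s, IsIntegral ℤ ((D : K) * x) := by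
  obtain ⟨y, hy, h⟩ := exists_integral_multiples ℤ ℚ s
  refine ⟨y.natAbs, Int.natAbs_ne_zero.2 hy, fun x hx => ?_⟩
  have h1 := h x hx
  rw [zsmul_eq_mul] at h1
  rcases Int.natAbs_eq y with h2 | h2
  · rw [h2] at h1
    simpa using h1
  · rw [h2] at h1
    have h3 := h1.neg
    simpa using h3

theorem exists_clr [NumberField K] (g : MvPolynomial (Fin (d + 1)) K)
    (c : Fin (m + 1) → Fin (d + 1) → K) (a : Fin (m + 1) → K) : ∃ D : ℕ, Clr g c a D := by
  classical
  obtain ⟨D, hD, h⟩ := exists_den (K := K)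
    ((g.support.image fun k => g.coeff k) ∪ (Finset.univ.image a) ∪
      (Finset.univ.image fun p : (Fin (d + 1) → Fin (m + 1)) × Fin (m + 1) × Fin (d + 1) =>
        al c p.1 p.2.1 p.2.2) ∪
      (Finset.univ.image fun p : (Fin (d + 1) → Fin (m + 1)) × Fin (m + 1) => be c a p.1 p.2) ∪
      (Finset.univ.image fun p : (Fin (d + 1) → Fin (m + 1)) × Fin (d + 1) × Fin (d + 1) =>
        (cm c p.1)⁻¹ p.2.1 p.2.2) ∪
      (Finset.univ.image fun p : (Fin (d + 1) → Fin (m + 1)) × Fin (d + 1) => kap c p.1 p.2) ∪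
      (Finset.univ.image fun p : (Fin (d + 1) → Fin (m + 1)) × Fin (d + 1) => (kap c p.1 p.2)⁻¹))
  refine ⟨D, hD, fun k => ?_, fun e => ?_, fun T e l => ?_, fun T e => ?_, fun T i j => ?_,
    fun T i => ?_, fun T i => ?_⟩
  · by_cases hk : k ∈ g.support
    · apply h
      simp only [Finset.mem_union, Finset.mem_image]
      exact Or.inl (Or.inl (Or.inl (Or.inl (Or.inl (Or.inl ⟨k, hk, rfl⟩)))))
    · rw [MvPolynomial.notMem_support_iff.1 hk, mul_zero]
      exact isIntegral_zero
  · apply h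
    simp only [Finset.mem_union, Finset.mem_image]
    exact Or.inl (Or.inl (Or.inl (Or.inl (Or.inl (Or.inr ⟨e, Finset.mem_univ _, rfl⟩)))))
  · apply h
    simp only [Finset.mem_union, Finset.mem_image]
    exact Or.inl (Or.inl (Or.inl (Or.inl (Or.inr ⟨(T, e, l), Finset.mem_univ _, rfl⟩))))
  · apply h
    simp only [Finset.mem_union, Finset.mem_image]
    exact Or.inl (Or.inl (Or.inl (Or.inr ⟨(T, e), Finset.mem_univ _, rfl⟩)))
  · apply h
    simp only [Finset.mem_union, Finset.mem_image]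
    exact Or.inl (Or.inl (Or.inr ⟨(T, i, j), Finset.mem_univ _, rfl⟩))
  · apply h
    simp only [Finset.mem_union, Finset.mem_image]
    exact Or.inl (Or.inr ⟨(T, i), Finset.mem_univ _, rfl⟩)
  · apply h
    simp only [Finset.mem_union, Finset.mem_image]
    exact Or.inr ⟨(T, i), Finset.mem_univ _, rfl⟩

end clr

section block

variable {L : Type*} [Field L] {n : ℕ}

/-- If the entries on `J` are `z_k / z_0`, where one of the `z_k` is larger than `1` and than
`z_0 - ∑_{k ∈ J} z_k`, then the symbol lies in the unit part. -/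
theorem block_scaled (v : Valuation L ℤᵐ⁰) (a : Fin n → Lˣ) (J : Finset (Fin n))
    (z : Fin n → Lˣ) (z0 : Lˣ) (ha : ∀ k ∈ J, a k = z k / z0) {l : Fin n} (hl : l ∈ J)
    (h1 : 1 < v (z l : L)) (h2 : v ((z0 : L) - ∑ k ∈ J, (z k : L)) < v (z l : L)) :
    symb a ∈ unitPart v n := by
  by_cases h3 : v ((z0 : L) - ∑ k ∈ J, (z k : L)) ≤ 1
  · exact mem_unitPart_of_block v a J z z0 ha h3 hl h1
  · have h4 : (z0 : L) - ∑ k ∈ J, (z k : L) ≠ 0 := by
      intro h0
      rw [h0, map_zero] at h3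
      exact h3 zero_le_one
    set s : Lˣ := Units.mk0 _ h4 with hs
    have hsv : (s : L) = (z0 : L) - ∑ k ∈ J, (z k : L) := rfl
    have hdiv : ∀ x : Lˣ, ((x / s : Lˣ) : L) = (x : L) / (s : L) := fun x =>
      Units.val_div_eq_div_val _ _
    have hs0 : 0 < v (s : L) := (Valuation.pos_iff v).2 s.ne_zero
    refine mem_unitPart_of_block v a J (fun k => z k / s) (z0 / s) (fun k hk => ?_) ?_ hl ?_
    · rw [ha k hk, div_div_div_cancel_right]
    · simp only [hdiv]
      rw [← Finset.sum_div, ← sub_div, ← hsv, div_self s.ne_zero, map_one]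
    · rw [hdiv, map_div₀, one_lt_div₀ hs0, hsv]
      exact h2

end block

section Unram

variable {K : Type*} [Field K] {d m : ℕ} {lam : K} {g : MvPolynomial (Fin (d + 1)) K}
  {w : Fin (m + 1) → ℕ} {c : Fin (m + 1) → Fin (d + 1) → K} {a : Fin (m + 1) → K}

variable {L : Type*} [Field L] (f : MvPolynomial (Fin (d + 1)) K →+* L)

open MvPolynomial (C X)

theorem val_C_le (v : Valuation L ℤᵐ⁰) {x : K} (h : IsIntegral ℤ x) : v (f (C x)) ≤ 1 :=
  Pool.Agent.TH826.MK.val_le_one_of_integral v (map_isIntegral_int (f.comp C) h)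

theorem f_nat (n : ℕ) : f (C (n : K)) = (n : L) := by
  rw [map_natCast, map_natCast]

/-- a bound of a constant from the denominator -/
theorem val_le_den [CharZero K] (v : Valuation L ℤᵐ⁰) {D : ℕ} (hD : D ≠ 0) {x : K}
    (h : IsIntegral ℤ ((D : K) * x)) : v (f (C x)) ≤ (v (D : L))⁻¹ := by
  have h1 := val_C_le f v h
  have h2 : (D : L) ≠ 0 := by
    have h3 : (f.comp C) (D : K) ≠ 0 := (map_ne_zero _).2 (Nat.cast_ne_zero.2 hD)
    rwa [map_natCast] at h3
  have h3 : 0 < v (D : L) := (Valuation.pos_iff v).2 h2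
  rw [map_mul, map_mul, f_nat, map_mul] at h1
  rw [← one_div, le_div_iff₀ h3, mul_comm]
  exact h1

theorem val_poly_le' (v : Valuation L ℤᵐ⁰) {β B : ℤᵐ⁰} (hg : ∀ k, v (f (C (g.coeff k))) ≤ β)
    (hB : 1 ≤ B) (hx : ∀ j, v (f (X j)) ≤ B) : v (f g) ≤ β * B ^ g.totalDegree := by
  have e : f g = ∑ k ∈ g.support, f (C (g.coeff k)) * ∏ j, f (X j) ^ k j := by
    have h2 : f = MvPolynomial.eval₂Hom (f.comp C) fun j => f (X j) := by
      refine MvPolynomial.ringHom_ext (fun x => ?_) fun j => ?_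
      · simp only [MvPolynomial.coe_eval₂Hom, MvPolynomial.eval₂_C, RingHom.comp_apply]
      · simp only [MvPolynomial.coe_eval₂Hom, MvPolynomial.eval₂_X]
    have h1 : f g = MvPolynomial.eval₂ (f.comp C) (fun j => f (X j)) g :=
      congrArg (fun F : MvPolynomial (Fin (d + 1)) K →+* L => F g) h2
    rw [h1, MvPolynomial.eval₂_eq']
    rfl
  rw [e]
  refine Valuation.map_sum_le v fun k hk => ?_
  rw [map_mul, map_prod]
  refine mul_le_mul' (hg _) ?_
  calc ∏ j, v (f (X j) ^ k j) ≤ ∏ j, B ^ k j := by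
        refine Finset.prod_le_prod' fun j _ => ?_
        rw [map_pow]
        exact pow_le_pow_left' (hx j) _
    _ = B ^ (∑ j, k j) := Finset.prod_pow_eq_pow_sum _ _ _
    _ ≤ B ^ g.totalDegree := by
        refine pow_le_pow_right' hB ?_
        have h1 := MvPolynomial.le_totalDegree hk
        rwa [Finsupp.sum_fintype _ _ fun _ => rfl] at h1

theorem f_lf {T : Fin (d + 1) → Fin (m + 1)} (hT : (cm c T).det ≠ 0) (e : Fin (m + 1)) :
    f (lf c a e) = ∑ l, f (C (al c T e l)) * f (lf c a (T l)) + f (C (be c a T e)) := by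
  rw [lf_eq (a := a) hT e, map_add, map_sum]
  simp only [map_mul]

theorem f_X {T : Fin (d + 1) → Fin (m + 1)} (hT : (cm c T).det ≠ 0) (j : Fin (d + 1)) :
    f (X j) = ∑ i, f (C ((cm c T)⁻¹ j i)) * (f (lf c a (T i)) + f (C (a (T i)))) := by
  rw [X_eq (a := a) hT j, map_sum]
  simp only [map_mul, map_add]

theorem aux_pow {M : Type*} [CommMonoid M] (x y : M) (A B : ℕ) :
    y ^ (A + B + 2) * (x * x ^ A * x ^ B) = (x * y) ^ (A + B + 1) * y := by
  have h1 : x * x ^ A * x ^ B = x ^ (A + B + 1) := by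
    rw [← pow_succ', ← pow_add]
    congr 1
    omega
  rw [mul_pow, h1, show A + B + 2 = (A + B + 1) + 1 by omega, pow_succ y (A + B + 1), mul_assoc,
    mul_left_comm, mul_comm y, mul_comm (y ^ (A + B + 1)) (x ^ (A + B + 1))]

/-- At a discrete valuation where `Φ` is not small, a symbol with the entries of the basis `T` lies
in the unit part, or these entries and `Φ` are units. -/
theorem dich [CharZero K] {D : ℕ} (hD : Clr g c a D) {mu : K}
    (hmu : IsIntegral ℤ mu) (hlam : lam = (D : K) ^ expo m g w * mu) (v : Valuation L ℤᵐ⁰)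
    {T : Fin (d + 1) → Fin (m + 1)} (hT : (cm c T).det ≠ 0) {n : ℕ} (A : Fin n → Lˣ)
    {ι : Fin (d + 1) → Fin n} (hι : Function.Injective ι) (z : Fin (d + 1) → Lˣ)
    (b : Fin (m + 1) → Lˣ) (hzv : ∀ k, (z k : L) = f (C (kap c T k)) * f (lf c a (T k)))
    (hwv : ∀ e, (b e : L) = f (lf c a e)) (hA : ∀ k, A (ι k) = z k / b (hi c T k))
    (hΦ : 1 ≤ v (f (C lam * (g * ∏ e, lf c a e ^ (w e + 1))))) :
    symb A ∈ unitPart v n ∨ (v (f (C lam * (g * ∏ e, lf c a e ^ (w e + 1)))) = 1 ∧
      ∀ k, v (A (ι k) : L) = 1) := by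
  classical
  set β : ℤᵐ⁰ := (v (D : L))⁻¹ with hβ
  have hcD : ∀ x : K, IsIntegral ℤ ((D : K) * x) → v (f (C x)) ≤ β := fun x hx =>
    val_le_den f v hD.ne hx
  have hD0 : (D : L) ≠ 0 := by
    have h3 : (f.comp C) (D : K) ≠ 0 := (map_ne_zero _).2 (Nat.cast_ne_zero.2 hD.ne)
    rwa [map_natCast] at h3
  have hvD0 : 0 < v (D : L) := (Valuation.pos_iff v).2 hD0
  have hvD1 : v (D : L) ≤ 1 := by
    have h3 := val_C_le f v (x := (D : K)) (isIntegral_natCast _)
    rwa [f_nat] at h3
  have hβ1 : 1 ≤ β := by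
    rw [hβ]
    exact (one_le_inv₀ hvD0).2 hvD1
  by_contra hcon0
  push Not at hcon0
  obtain ⟨hcon, hcon2⟩ := hcon0
  -- the bounds of the forms
  have hbd : ∀ N : ℕ, ∀ k, m + 1 - (hi c T k : ℕ) ≤ N → v (f (lf c a (T k))) ≤ β ^ (2 * N) := by
    intro N
    induction N with
    | zero =>
      intro k hk
      have := (hi c T k).2
      omega
    | succ N ih =>
      intro k hk
      set J : Finset (Fin (d + 1)) := Finset.univ.filter fun l => hi c T l = hi c T k with hJ
      have hkJ : k ∈ J := Finset.mem_filter.2 ⟨Finset.mem_univ _, rfl⟩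
      have e1 : (b (hi c T k) : L) - ∑ l ∈ J, (z l : L) =
          ∑ l ∈ Jᶜ, f (C (al c T (hi c T k) l)) * f (lf c a (T l)) +
            f (C (be c a T (hi c T k))) := by
        rw [hwv, f_lf f hT, ← Finset.sum_add_sum_compl J]
        have e2 : ∀ l ∈ J, (z l : L) = f (C (al c T (hi c T k) l)) * f (lf c a (T l)) := by
          intro l hl
          rw [hzv, kap_eq hT, (Finset.mem_filter.1 hl).2]
        rw [Finset.sum_congr rfl e2]
        ring
      have h2 : v ((b (hi c T k) : L) - ∑ l ∈ J, (z l : L)) ≤ β ^ (2 * N + 1) := by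
        rw [e1]
        refine (v.map_add _ _).trans (max_le ?_ ?_)
        · refine Valuation.map_sum_le v fun l hl => ?_
          by_cases hal : al c T (hi c T k) l = 0
          · rw [hal, map_zero, map_zero, zero_mul, map_zero]
            exact zero_le
          · have h3 : hi c T k ≤ hi c T l := le_hi_of_al hT hal
            have h4 : hi c T l ≠ hi c T k := fun h =>
              (Finset.mem_compl.1 hl) (Finset.mem_filter.2 ⟨Finset.mem_univ _, h⟩)
            have h5 : (hi c T k : ℕ) < (hi c T l : ℕ) := lt_of_le_of_ne h3 (fun h =>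
              h4 (Fin.ext h.symm))
            have h6 := ih l (by omega)
            rw [map_mul, pow_succ, mul_comm (β ^ (2 * N))]
            exact mul_le_mul' (hcD _ (hD.clr_al _ _ _)) h6
        · refine (hcD _ (hD.clr_be _ _)).trans ?_
          exact le_self_pow hβ1 (by omega)
      have h3 : v (z k : L) ≤ β ^ (2 * N + 1) := by
        by_contra h4
        push Not at h4
        apply hcon
        refine block_scaled v _ (J.map ⟨ι, hι⟩) (Function.extend ι z 1) (b (hi c T k))
          (l := ι k) (fun l hl => ?_) (Finset.mem_map_of_mem _ hkJ) ?_ ?_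
        · obtain ⟨l', hl', rfl⟩ := Finset.mem_map.1 hl
          show A (ι l') = Function.extend ι z 1 (ι l') / b (hi c T k)
          rw [hι.extend_apply, hA, (Finset.mem_filter.1 hl').2]
        · rw [hι.extend_apply]
          exact (one_le_pow₀ hβ1).trans_lt h4
        · rw [Finset.sum_map, hι.extend_apply]
          have e3 : ∀ l ∈ J, ((Function.extend ι z 1 ((⟨ι, hι⟩ : Fin (d + 1) ↪ Fin n) l) : Lˣ) : L) =
              (z l : L) := fun l _ => congrArg Units.val (hι.extend_apply z 1 l)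
          rw [Finset.sum_congr rfl e3]
          exact h2.trans_lt h4
      have h4 : f (lf c a (T k)) = f (C (kap c T k)⁻¹) * (z k : L) := by
        have h40 : f (C (kap c T k)⁻¹) * f (C (kap c T k)) = 1 := by
          rw [← map_mul f, ← map_mul C, inv_mul_cancel₀ (kap_ne hT k), map_one, map_one]
        rw [hzv, ← mul_assoc, h40, one_mul]
      rw [h4, map_mul, show 2 * (N + 1) = (2 * N + 1) + 1 by ring, pow_succ β (2 * N + 1),
        mul_comm (β ^ (2 * N + 1))]
      exact mul_le_mul' (hcD _ (hD.clr_kinv _ _)) h3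
  have hT1 : ∀ k, v (f (lf c a (T k))) ≤ β ^ (2 * m + 2) := by
    intro k
    have h := hbd (m + 1) k (Nat.sub_le _ _)
    rwa [show 2 * (m + 1) = 2 * m + 2 by ring] at h
  have hbe1 : ∀ j : ℕ, 1 ≤ j → β ≤ β ^ j := fun j hj => le_self_pow hβ1 (by omega)
  have hle : ∀ e, v (f (lf c a e)) ≤ β ^ (2 * m + 3) := by
    intro e
    rw [f_lf f hT e]
    refine (v.map_add _ _).trans (max_le ?_ ((hcD _ (hD.clr_be T _)).trans (hbe1 _ (by omega))))
    refine Valuation.map_sum_le v fun k _ => ?_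
    rw [map_mul, pow_succ β (2 * m + 2), mul_comm (β ^ (2 * m + 2))]
    exact mul_le_mul' (hcD _ (hD.clr_al T _ _)) (hT1 k)
  have hx : ∀ j, v (f (X j)) ≤ β ^ (2 * m + 3) := by
    intro j
    rw [f_X f hT j]
    refine Valuation.map_sum_le v fun i _ => ?_
    rw [map_mul, pow_succ β (2 * m + 2), mul_comm (β ^ (2 * m + 2))]
    refine mul_le_mul' (hcD _ (hD.clr_inv T _ _)) ?_
    exact (v.map_add _ _).trans (max_le (hT1 i) ((hcD _ (hD.clr_a _)).trans (hbe1 _ (by omega))))
  have hgv := val_poly_le' f v (fun k => hcD _ (hD.clr_g k)) (one_le_pow₀ hβ1) hx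
  have hone := hΦ
  rw [map_mul f, map_mul f, map_prod f, map_mul v, map_mul v, map_prod v] at hone
  have hlamv : v (f (C lam)) ≤ v (D : L) ^ expo m g w := by
    rw [hlam, map_mul C, map_mul f, map_pow C, map_pow f, f_nat, map_mul v, map_pow v]
    exact mul_le_of_le_one_right' (val_C_le f v hmu)
  have hprod : ∏ e, v (f (lf c a e ^ (w e + 1))) ≤ β ^ ((2 * m + 3) * ∑ e, (w e + 1)) := by
    calc ∏ e, v (f (lf c a e ^ (w e + 1))) ≤ ∏ e, (β ^ (2 * m + 3)) ^ (w e + 1) := by
          refine Finset.prod_le_prod' fun e _ => ?_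
          rw [map_pow, map_pow]
          exact pow_le_pow_left' (hle e) _
      _ = β ^ ((2 * m + 3) * ∑ e, (w e + 1)) := by
          rw [Finset.prod_pow_eq_pow_sum, ← pow_mul]
  rw [← pow_mul] at hgv
  have hβD : β * v (D : L) = 1 := by
    rw [hβ]
    exact inv_mul_cancel₀ hvD0.ne'
  -- `D` is a unit at `v`
  have hβe : β = 1 := by
    by_contra hne
    have hlt : v (D : L) < 1 := by
      refine lt_of_le_of_ne hvD1 fun h => hne ?_
      rw [hβ, h, inv_one]
    have h1 : (1 : ℤᵐ⁰) ≤ v (D : L) := by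
      calc (1 : ℤᵐ⁰) ≤ v (f (C lam)) * (v (f g) * ∏ e, v (f (lf c a e ^ (w e + 1)))) := hone
        _ ≤ v (D : L) ^ expo m g w * (β * β ^ ((2 * m + 3) * g.totalDegree) *
            β ^ ((2 * m + 3) * ∑ e, (w e + 1))) :=
          mul_le_mul' hlamv (mul_le_mul' hgv hprod)
        _ = (β * v (D : L)) ^ ((2 * m + 3) * g.totalDegree + (2 * m + 3) * (∑ e, (w e + 1)) + 1) *
            v (D : L) := by
          exact aux_pow _ _ _ _
        _ = v (D : L) := by rw [hβD, one_pow, one_mul]
    exact absurd h1 (not_le.2 hlt)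
  rw [hβe] at hle hgv hprod hcD
  simp only [one_pow, mul_one] at hle hgv
  have hvDe : v (D : L) = 1 := by
    rw [hβe, one_mul] at hβD
    exact hβD
  rw [hvDe, one_pow] at hlamv
  have hB : ∀ e, v (f (lf c a e)) = 1 := by
    intro e
    refine le_antisymm (hle e) (hone.trans ?_)
    rw [← Finset.mul_prod_erase _ _ (Finset.mem_univ e)]
    have h1 : ∏ x ∈ Finset.univ.erase e, v (f (lf c a x ^ (w x + 1))) ≤ 1 :=
      Finset.prod_le_one' fun j _ => by
        rw [map_pow, map_pow]
        exact pow_le_one' (hle j) _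
    have h2 : v (f (lf c a e ^ (w e + 1))) ≤ v (f (lf c a e)) := by
      rw [map_pow, map_pow, pow_succ]
      exact mul_le_of_le_one_left' (pow_le_one' (hle e) _)
    calc v (f (C lam)) * (v (f g) *
          (v (f (lf c a e ^ (w e + 1))) * ∏ x ∈ Finset.univ.erase e, v (f (lf c a x ^ (w x + 1)))))
        ≤ 1 * (1 * (v (f (lf c a e)) * 1)) :=
          mul_le_mul' hlamv (mul_le_mul' hgv (mul_le_mul' h2 h1))
      _ = v (f (lf c a e)) := by rw [one_mul, one_mul, mul_one]
  have hkap : ∀ k, v (f (C (kap c T k))) = 1 := by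
    intro k
    refine le_antisymm (hcD _ (hD.clr_kap T k)) ?_
    have h1 := hcD _ (hD.clr_kinv T k)
    have h0 : f (C (kap c T k)) * f (C (kap c T k)⁻¹) = 1 := by
      rw [← map_mul f, ← map_mul C, mul_inv_cancel₀ (kap_ne hT k), map_one, map_one]
    have h2 := congrArg v h0
    rw [map_mul, map_one] at h2
    rw [← h2]
    exact mul_le_of_le_one_right' h1
  obtain ⟨k, hk⟩ := hcon2 (by
    refine le_antisymm ?_ hΦ
    rw [map_mul f, map_mul f, map_prod f, map_mul v, map_mul v, map_prod v]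
    refine mul_le_one' hlamv (mul_le_one' hgv (Finset.prod_le_one' fun e _ => ?_))
    rw [map_pow, map_pow]
    exact pow_le_one' (hle e) _)
  apply hk
  rw [hA, Units.val_div_eq_div_val, map_div₀, hzv, map_mul, hkap, hwv, hB, hB, div_one, one_mul]

end Unram

end Pool.Agent.K7.H1.AR
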