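import Pool.Agent.K7.H1.AR.Def
import Pool.Agent.K7.H1.AR.Val
import Pool.Agent.K7.H1.CF.Blk
set_option autoImplicit false

/-!
The symbols are unramified at all discrete valuations, if `λ` is sufficiently divisible.
-/

namespace Pool.Agent.K7.H1.AR

open scoped WithZero

open Pool.Agent.TH826.MK (KQ symb Unramified unitPart)

open Pool.Agent.TH826.EF (onePart onePart_le)

open Pool.Agent.TH690.SF (mem_onePart_of_comp block_mem_onePart)

open Pool.Agent.TH826.GA (cm lf ku coe_ku)

open Pool.Agent.TH577.UA (hi kap kap_ne)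

open Pool.Agent.K7.H1.CF (WW block_le)

open MvPolynomial (C X)

section block

variable {L : Type*} [Field L] {n : ℕ}

/-- A block of entries whose sum plus the inverse of a monomial is integral. -/
theorem blockJ (v : Valuation L ℤᵐ⁰) (A : Fin n → Lˣ) (J : Finset (Fin n)) (wt : Fin n → ℕ)
    (hwt : ∀ l, 1 ≤ wt l) (φ : L) (h : ∑ l ∈ J, (A l : L) + (∏ l ∈ J, (A l : L) ^ wt l)⁻¹ = φ)
    (hφ : v φ ≤ 1) : symb A ∈ onePart v n ∨ (v φ = 1 ∧ ∀ l ∈ J, v (A l : L) = 1) := by
  classical
  rcases J.eq_empty_or_nonempty with rfl | hne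
  · right
    rw [Finset.sum_empty, Finset.prod_empty, inv_one, zero_add] at h
    rw [← h, map_one]
    exact ⟨rfl, fun l hl => absurd hl (Finset.notMem_empty l)⟩
  · obtain ⟨k, hk⟩ : ∃ k, J.card = k + 1 := ⟨J.card - 1, by
      have := Finset.card_pos.2 hne
      omega⟩
    set ι : Fin (k + 1) ↪o Fin n := J.orderEmbOfFin hk with hι
    have himg : Finset.univ.map ι.toEmbedding = J := by
      ext x
      rw [Finset.mem_map]
      constructor
      · rintro ⟨i, -, rfl⟩
        exact Finset.orderEmbOfFin_mem J hk i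
      · intro hx
        have h1 : x ∈ Set.range (J.orderEmbOfFin hk) := by
          rw [Finset.range_orderEmbOfFin]
          exact hx
        obtain ⟨i, hi⟩ := h1
        exact ⟨i, Finset.mem_univ _, hi⟩
    have hsum : ∑ l, (WW (fun i => A (ι i)) (fun i => wt (ι i)) l : L) = φ := by
      rw [Fin.sum_univ_succ, ← h]
      have e1 : ∑ l ∈ J, (A l : L) = ∑ i, (A (ι i) : L) := by
        conv_lhs => rw [← himg]
        rw [Finset.sum_map]
        rfl
      have e2 : ∏ l ∈ J, (A l : L) ^ wt l = ∏ i, (A (ι i) : L) ^ wt (ι i) := by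
        conv_lhs => rw [← himg]
        rw [Finset.prod_map]
        rfl
      rw [e1, e2, add_comm]
      congr 1
      unfold WW
      rw [Fin.cons_zero, Units.val_inv_eq_inv_val, Units.coe_prod]
      simp only [Units.val_pow_eq_pow_val]
    have hcomp : ∀ hh : symb (fun i => A (ι i)) ∈ onePart v (k + 1), symb A ∈ onePart v n :=
      fun hh => mem_onePart_of_comp v A ι.injective hh
    rcases block_le v (fun i => A (ι i)) (fun i => wt (ι i)) (fun i => hwt _) φ hsum hφ with
      h1 | h1
    · exact Or.inl (hcomp h1)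
    · rcases hφ.lt_or_eq with h2 | h2
      · left
        refine hcomp (block_mem_onePart v _ (fun i => wt (ι i)) (Fin.succ 0) ?_)
        have h3 : (Fin.cons (∏ i, A (ι i) ^ wt (ι i))⁻¹ (fun i => A (ι i)) :
            Fin (k + 1 + 1) → Lˣ) = WW (fun i => A (ι i)) (fun i => wt (ι i)) := rfl
        rw [h3, hsum]
        show v φ < v (A (ι 0) : L)
        rw [h1]
        exact h2
      · refine Or.inr ⟨h2, fun l hl => ?_⟩
        rw [← himg] at hl
        obtain ⟨i, -, rfl⟩ := Finset.mem_map.1 hl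
        exact h1 i

end block

section Unram

variable {K : Type*} [Field K] {d m s B : ℕ} {F : Fib K d m s B} {lam : K}

variable {L : Type*} [Field L] (f : F.FRing lam →+* L)

/-- the positions of the `y_i` -/
def py (d s : ℕ) : Fin s ↪ Fin (s + (d + 1) + 1) :=
  ⟨fun i => (Fin.castAdd (d + 1) i).succ, fun _ _ h =>
    Fin.castAdd_injective _ _ (Fin.succ_injective _ h)⟩

/-- the positions of the `κ_i L_{T_i} / L_{h_i}` -/
def px (d s : ℕ) (i : Fin (d + 1)) : Fin (s + (d + 1) + 1) := (Fin.natAdd s i).succ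

theorem px_injective (d s : ℕ) : Function.Injective (px d s) := fun _ _ h =>
  Fin.natAdd_injective _ _ (Fin.succ_injective _ h)

theorem ent_py (T : Fin (d + 1) → Fin (m + 1)) (i : Fin s) :
    F.ent lam T (py d s i) = F.uy lam i := by
  show (Fin.cons (F.uz lam) (Fin.append (F.uy lam) (F.ux lam T)) :
    Fin (s + (d + 1) + 1) → (F.FRing lam)ˣ) (Fin.castAdd (d + 1) i).succ = _
  rw [Fin.cons_succ, Fin.append_left]

theorem ent_px (T : Fin (d + 1) → Fin (m + 1)) (i : Fin (d + 1)) :
    F.ent lam T (px d s i) = F.ux lam T i := by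
  unfold Fib.ent px
  rw [Fin.cons_succ, Fin.append_right]

theorem ent_zero (T : Fin (d + 1) → Fin (m + 1)) : F.ent lam T 0 = F.uz lam := rfl

/-- the sums of the blocks `k ≥ 1` -/
noncomputable def fk (k : Fin (B + 1)) : L := f (F.io lam (F.S k)) + (f (F.io lam (F.P k)))⁻¹

theorem f_S (k : Fin (B + 1)) : f (F.io lam (F.S k)) =
    ∑ i with F.b i = k, f (F.uy lam i : F.FRing lam) := by
  unfold Fib.S
  rw [map_sum, map_sum]
  refine Finset.sum_congr rfl fun i _ => ?_
  rw [F.io_X]
  rfl

theorem f_P (k : Fin (B + 1)) : f (F.io lam (F.P k)) =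
    ∏ i with F.b i = k, f (F.uy lam i : F.FRing lam) ^ (F.v i + 1) := by
  unfold Fib.P
  rw [map_prod, map_prod]
  refine Finset.prod_congr rfl fun i _ => ?_
  rw [map_pow, map_pow, F.io_X]
  rfl

theorem f_P_ne (k : Fin (B + 1)) : f (F.io lam (F.P k)) ≠ 0 := by
  rw [f_P]
  exact Finset.prod_ne_zero_iff.2 fun i _ => pow_ne_zero _ ((F.uy lam i).isUnit.map f).ne_zero

/-- the equation -/
theorem f_eqn : (f (F.uz lam : F.FRing lam) + f (F.io lam (F.S 0)) +
    (f (F.uz lam : F.FRing lam) * f (F.io lam (F.P 0)))⁻¹) * ∏ k : Fin B, fk f k.succ =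
    f (F.ix lam (F.Phi lam)) := by
  have h := congrArg f (F.eqn_zero lam)
  simp only [map_add, map_mul, map_sub, map_pow, map_zero] at h
  have hQ : f (F.io lam F.Q) = f (F.io lam F.P') * ∏ k : Fin B, fk f k.succ := by
    unfold Fib.Q Fib.P'
    rw [map_prod, map_prod, map_prod, map_prod, ← Finset.prod_mul_distrib]
    refine Finset.prod_congr rfl fun k _ => ?_
    unfold fk
    rw [mul_add, mul_inv_cancel₀ (f_P_ne f k.succ), map_add, map_add, map_mul, map_mul, map_one,
      map_one]
    ring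
  have hP' : f (F.io lam F.P') ≠ 0 := by
    unfold Fib.P'
    rw [map_prod, map_prod]
    exact Finset.prod_ne_zero_iff.2 fun k _ => f_P_ne f k.succ
  have hP0 := f_P_ne f (F := F) (lam := lam) 0
  have hz : f (F.uz lam : F.FRing lam) ≠ 0 := ((F.uz lam).isUnit.map f).ne_zero
  have hzc : F.co lam (Sum.inr (Sum.inr false)) = (F.uz lam : F.FRing lam) := rfl
  rw [hzc, hQ] at h
  have h1 : (f (F.uz lam : F.FRing lam) + f (F.io lam (F.S 0)) +
      (f (F.uz lam : F.FRing lam) * f (F.io lam (F.P 0)))⁻¹) =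
      (f (F.io lam (F.P 0)) * f (F.uz lam : F.FRing lam) ^ 2 +
        f (F.io lam (F.P 0)) * f (F.io lam (F.S 0)) * f (F.uz lam : F.FRing lam) + 1) /
        (f (F.uz lam : F.FRing lam) * f (F.io lam (F.P 0))) := by
    field_simp
  rw [h1, div_mul_eq_mul_div, div_eq_iff (mul_ne_zero hz hP0)]
  apply mul_left_cancel₀ hP'
  linear_combination h

theorem wt_pos (wt : Fin s → ℕ) (l : Fin (s + (d + 1) + 1)) :
    1 ≤ (Fin.cons 1 (Fin.append (fun i => wt i + 1) fun _ => 1) :
      Fin (s + (d + 1) + 1) → ℕ) l := by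
  refine Fin.cases le_rfl (fun l => ?_) l
  rw [Fin.cons_succ]
  refine Fin.addCases (fun i => ?_) (fun i => ?_) l
  · rw [Fin.append_left]
    omega
  · rw [Fin.append_right]

theorem symb_mem_unitPart [CharZero K] {D : ℕ} (hD : Clr F.g F.c F.a D) {mu : K}
    (hmu : IsIntegral ℤ mu) (hlam : lam = (D : K) ^ expo m F.g F.w * mu) (v : Valuation L ℤᵐ⁰)
    {T : Fin (d + 1) → Fin (m + 1)} (hT : (cm F.c T).det ≠ 0) :
    symb (fun l => Units.map (f : F.FRing lam →* L) (F.ent lam T l)) ∈
      unitPart v (s + (d + 1) + 1) := by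
  classical
  set A : Fin (s + (d + 1) + 1) → Lˣ := fun l => Units.map (f : F.FRing lam →* L) (F.ent lam T l)
    with hA
  set wt : Fin (s + (d + 1) + 1) → ℕ := Fin.cons 1 (Fin.append (fun i => F.v i + 1) fun _ => 1)
    with hwt
  have hwt1 : ∀ l, 1 ≤ wt l := wt_pos F.v
  have hwty : ∀ i, wt (py d s i) = F.v i + 1 := by
    intro i
    show (Fin.cons 1 (Fin.append (fun i => F.v i + 1) fun _ => 1) : Fin (s + (d + 1) + 1) → ℕ)
      (Fin.castAdd (d + 1) i).succ = _
    rw [Fin.cons_succ, Fin.append_left]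
  have hAy : ∀ i, (A (py d s i) : L) = f (F.uy lam i : F.FRing lam) := by
    intro i
    simp only [hA, ent_py]
    rfl
  have hAz : (A 0 : L) = f (F.uz lam : F.FRing lam) := rfl
  by_contra hcon
  have hcon1 : symb A ∉ onePart v (s + (d + 1) + 1) := fun h => hcon (onePart_le v h)
  -- the blocks
  set φ0 : L := f (F.uz lam : F.FRing lam) + f (F.io lam (F.S 0)) +
    (f (F.uz lam : F.FRing lam) * f (F.io lam (F.P 0)))⁻¹ with hφ0
  set J : Fin (B + 1) → Finset (Fin (s + (d + 1) + 1)) := fun k =>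
    (Finset.univ.filter fun i => F.b i = k).map (py d s) with hJ
  have h0J : ∀ k, (0 : Fin (s + (d + 1) + 1)) ∉ J k := by
    intro k hk
    obtain ⟨i, -, hi⟩ := Finset.mem_map.1 hk
    exact absurd hi (Fin.succ_ne_zero (Fin.castAdd (d + 1) i))
  have hbk : ∀ k : Fin B, 1 < v (fk f k.succ) ∨ (v (fk f k.succ) = 1 ∧
      ∀ l ∈ J k.succ, v (A l : L) = 1) := by
    intro k
    rcases lt_or_ge 1 (v (fk f k.succ)) with h | h
    · exact Or.inl h
    · right
      refine (blockJ v A (J k.succ) wt hwt1 (fk f k.succ) ?_ h).resolve_left hcon1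
      unfold fk
      rw [hJ]
      simp only [Finset.sum_map, Finset.prod_map]
      rw [f_S, f_P]
      simp only [hAy, hwty]
  have hb0 : 1 < v φ0 ∨ (v φ0 = 1 ∧ ∀ l ∈ insert 0 (J 0), v (A l : L) = 1) := by
    rcases lt_or_ge 1 (v φ0) with h | h
    · exact Or.inl h
    · right
      refine (blockJ v A (insert 0 (J 0)) wt hwt1 φ0 ?_ h).resolve_left hcon1
      rw [Finset.sum_insert (h0J 0), Finset.prod_insert (h0J 0), hφ0, hJ]
      simp only [Finset.sum_map, Finset.prod_map]
      rw [f_S, f_P]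
      simp only [hAy, hwty, hAz]
      have h1 : wt 0 = 1 := rfl
      rw [h1, pow_one]
  have hk1 : ∀ k : Fin B, 1 ≤ v (fk f k.succ) := fun k => by
    rcases hbk k with h | h
    · exact h.le
    · exact h.1.ge
  have h01 : 1 ≤ v φ0 := by
    rcases hb0 with h | h
    · exact h.le
    · exact h.1.ge
  have heq : v φ0 * ∏ k : Fin B, v (fk f k.succ) = v (f (F.ix lam (F.Phi lam))) := by
    rw [← f_eqn f, map_mul, map_prod]
  have hprod1 : 1 ≤ ∏ k : Fin B, v (fk f k.succ) := Finset.one_le_prod' fun k _ => hk1 k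
  have hΦ : 1 ≤ v (f (F.ix lam (F.Phi lam))) := by
    rw [← heq]
    exact one_le_mul h01 hprod1
  rcases dich (f.comp (F.ix lam)) hD hmu hlam v hT A (px_injective d s)
    (fun k => Units.map (f : F.FRing lam →* L)
      (Units.map (F.cst lam : K →* F.FRing lam) (ku (kap F.c T k)) * F.uL lam (T k)))
    (fun e => Units.map (f : F.FRing lam →* L) (F.uL lam e))
    (fun k => by
      simp only [map_mul, Units.val_mul]
      congr 1
      show f (F.cst lam (ku (kap F.c T k) : K)) = _
      rw [coe_ku (kap_ne hT k)]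
      rfl)
    (fun e => rfl)
    (fun k => by
      simp only [hA, ent_px]
      unfold Fib.ux
      simp only [map_mul, map_div]
      rw [mul_div_assoc]) hΦ with h | ⟨h, hx⟩
  · exact hcon h
  · have h' : v φ0 * ∏ k : Fin B, v (fk f k.succ) = 1 := by
      rw [heq]
      exact h
    have e0 : v φ0 = 1 := by
      refine le_antisymm ?_ h01
      rw [← h']
      exact le_mul_of_one_le_right' hprod1
    have ek : ∀ k : Fin B, v (fk f k.succ) = 1 := by
      intro k
      refine le_antisymm ?_ (hk1 k)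
      rw [e0, one_mul] at h'
      rw [← h', ← Finset.mul_prod_erase _ _ (Finset.mem_univ k)]
      exact le_mul_of_one_le_right' (Finset.one_le_prod' fun k _ => hk1 k)
    apply hcon
    refine Submodule.subset_span ⟨A, fun l => ?_, rfl⟩
    refine Fin.cases ?_ (fun l => ?_) l
    · rcases hb0 with h1 | h1
      · exact absurd e0 h1.ne'
      · exact h1.2 0 (Finset.mem_insert_self _ _)
    · refine Fin.addCases (fun i => ?_) (fun i => ?_) l
      · have hi : py d s i = (Fin.castAdd (d + 1) i).succ := rfl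
        rw [← hi]
        by_cases hb : F.b i = 0
        · rcases hb0 with h1 | h1
          · exact absurd e0 h1.ne'
          · exact h1.2 _ (Finset.mem_insert_of_mem (Finset.mem_map_of_mem _
              (Finset.mem_filter.2 ⟨Finset.mem_univ _, hb⟩)))
        · obtain ⟨k, hk⟩ := Fin.exists_succ_eq.2 hb
          rcases hbk k with h1 | h1
          · exact absurd (ek k) h1.ne'
          · exact h1.2 _ (Finset.mem_map_of_mem _
              (Finset.mem_filter.2 ⟨Finset.mem_univ _, hk.symm⟩))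
      · exact hx i

theorem symb_mem_unramified [CharZero K] {D : ℕ} (hD : Clr F.g F.c F.a D) {mu : K}
    (hmu : IsIntegral ℤ mu) (hlam : lam = (D : K) ^ expo m F.g F.w * mu)
    {T : Fin (d + 1) → Fin (m + 1)} (hT : (cm F.c T).det ≠ 0) :
    KQ.map (s + (d + 1) + 1) f (symb (F.ent lam T)) ∈ Unramified L (s + (d + 1) + 1) := by
  rw [KQ.map_symb]
  unfold Unramified
  simp only [Submodule.mem_iInf]
  intro v _
  exact symb_mem_unitPart f hD hmu hlam v hT

end Unram

end Pool.Agent.K7.H1.AR
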