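import Pool.Agent.K7.H1.AR.Fin
import Pool.Agent.K7.H1.AR.Dom
import Pool.Agent.K7.H1.AR.Unr
import Pool.Agent.K7.H1.AR.Count
set_option autoImplicit false

/-!
The main theorem on fibrations over arrangements of hyperplanes.
-/

namespace Pool.Agent.K7.H1.AR

open MvPolynomial

open Pool.Agent.TH826.MK (KQ symb Unramified Torus)

open Pool.Agent.TH826.GA (cm lf vtx)

open Pool.Agent.TH577.UA (Ix Distinct)

variable {K : Type*} [Field K] {d m s B : ℕ} (F : Fib K d m s B)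

theorem lf_ne_zero {c : Fin (m + 1) → Fin (d + 1) → K} {a : Fin (m + 1) → K}
    (hD : Distinct c a) (hR : ∃ T : Fin (d + 1) → Fin (m + 1), (cm c T).det ≠ 0)
    (e : Fin (m + 1)) : lf c a e ≠ 0 := by
  classical
  intro h
  have hc : ∀ j, c e j = 0 := by
    intro j
    have h1 := congrArg (fun p => pderiv j p) h
    simp only [map_zero] at h1
    unfold lf at h1
    rw [map_sub, map_sum, pderiv_C, sub_zero, Finset.sum_eq_single j] at h1
    · rw [pderiv_C_mul, pderiv_X_self, mul_one] at h1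
      exact C_injective _ _ (h1.trans (map_zero C).symm)
    · intro i _ hi
      rw [pderiv_C_mul, pderiv_X_of_ne hi, mul_zero]
    · intro h
      exact absurd (Finset.mem_univ j) h
  have ha : a e = 0 := by
    have h1 := congrArg (eval fun _ => (0 : K)) h
    unfold lf at h1
    rw [map_sub, map_sum, eval_C, map_zero] at h1
    simp only [map_mul, eval_X, mul_zero, Finset.sum_const_zero, zero_sub, neg_eq_zero] at h1
    exact h1
  obtain ⟨T, hT⟩ := hR
  by_cases he : T 0 = e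
  · apply hT
    refine Matrix.det_eq_zero_of_row_eq_zero 0 fun j => ?_
    unfold cm
    rw [Matrix.of_apply, he, hc]
  · refine hD e (T 0) (fun h => he h.symm) 0 ⟨fun j => ?_, ?_⟩
    · rw [hc, zero_mul]
    · rw [ha, zero_mul]

theorem Phi_ne_zero (hD : Distinct F.c F.a)
    (hR : ∃ T : Fin (d + 1) → Fin (m + 1), (cm F.c T).det ≠ 0)
    (hv : ∀ T : Fin (d + 1) → Fin (m + 1), (cm F.c T).det ≠ 0 → eval (vtx F.c F.a T) F.g ≠ 0)
    {lam : K} (hl : lam ≠ 0) : F.Phi lam ≠ 0 := by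
  have hg : F.g ≠ 0 := by
    obtain ⟨T, hT⟩ := hR
    intro h
    apply hv T hT
    rw [h, map_zero]
  unfold Fib.Phi
  refine mul_ne_zero (fun h => hl (C_injective _ _ (h.trans (map_zero C).symm)))
    (mul_ne_zero hg (Finset.prod_ne_zero_iff.2 fun e _ => pow_ne_zero _ (lf_ne_zero hD hR e)))

theorem main.{u, v} {K : Type u} [Field K] [NumberField K] {d m s B : ℕ} (σ : K →+* ℂ)
    (F : Fib K d m s B) (hD : Distinct F.c F.a)
    (hR : ∃ T : Fin (d + 1) → Fin (m + 1), (cm F.c T).det ≠ 0)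
    (hv : ∀ T : Fin (d + 1) → Fin (m + 1), (cm F.c T).det ≠ 0 →
      eval (vtx F.c F.a T) F.g ≠ 0) :
    (∃ D : ℕ, Clr F.g F.c F.a D) ∧ ∃ C : ℝ, ∀ D : ℕ, Clr F.g F.c F.a D →
      ∀ mu lam : K, IsIntegral ℤ mu → lam = (D : K) ^ expo m F.g F.w * mu → C ≤ ‖σ lam‖ →
      IsDomain (F.FRing lam) ∧
      (∀ (L : Type v) [Field L] (f : F.FRing lam →+* L) (T : Fin (d + 1) → Fin (m + 1)),
        (cm F.c T).det ≠ 0 → KQ.map (s + (d + 1) + 1) f (symb (F.ent lam T)) ∈
          Unramified L (s + (d + 1) + 1)) ∧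
      ∃ Γ : Ix F.c F.a → Torus (F.FRing lam) (s + (d + 1)),
        (∀ T, F.Over lam σ (Γ T)) ∧
        (Matrix.of fun T T' : Ix F.c F.a =>
          (Γ T).reg (symb (F.ent lam T'.1))).det ≠ 0 := by
  refine ⟨exists_clr F.g F.c F.a, ?_⟩
  obtain ⟨C, hC1, hC⟩ := exists_tori σ F hD hv
  refine ⟨C, fun D hDc mu lam hmu hlam hl => ?_⟩
  have hl0 : lam ≠ 0 := by
    intro h0
    rw [h0, map_zero, norm_zero] at hl
    linarith
  exact ⟨isDomain_FRing hR (Phi_ne_zero F hD hR hv hl0),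
    fun L _ f T hT => symb_mem_unramified f hDc hmu hlam hT, hC lam hl⟩

end Pool.Agent.K7.H1.AR
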