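import Pool.Agent.TH577.UA.Final
set_option autoImplicit false

/-!
Fibrations over the affine space, given by an arbitrary arrangement of hyperplanes.
-/

namespace Pool.Agent.K7.H1.AR

open MvPolynomial

open Pool.Agent.TH826.MK (KQ symb Torus Unramified)

open Pool.Agent.TH826.GA (cm lf ku)

open Pool.Agent.TH577.UA (hi kap)

/-- Affine forms `L_e = ∑_j c_{e,j} x_j - a_e`, `0 ≤ e ≤ m`, in `x_0, ..., x_d` with exponents
`w_e + 1 ≥ 1`, a polynomial `g` in these variables, and the variables `y_i`, `1 ≤ i ≤ s`, which are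
distributed over `B + 1` blocks, the block `b_i` and the exponent `v_i + 1 ≥ 1` of `y_i`. -/
structure Fib (K : Type*) [Field K] (d m s B : ℕ) where
  /-- the linear parts of the forms -/
  c : Fin (m + 1) → Fin (d + 1) → K
  /-- the constants -/
  a : Fin (m + 1) → K
  /-- the exponents of the forms, minus one -/
  w : Fin (m + 1) → ℕ
  /-- the additional factor -/
  g : MvPolynomial (Fin (d + 1)) K
  /-- the blocks of the variables -/
  b : Fin s → Fin (B + 1)
  /-- the exponents of the variables, minus one -/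
  v : Fin s → ℕ

variable {K : Type*} [Field K] {d m s B : ℕ} (F : Fib K d m s B)

/-- The polynomial `Φ = λ g ∏_e L_e ^ (w_e + 1)` in `x_0, ..., x_d`. -/
noncomputable def Fib.Phi (lam : K) : MvPolynomial (Fin (d + 1)) K :=
  C lam * (F.g * ∏ e, lf F.c F.a e ^ (F.w e + 1))

/-- The monomial `P_k = ∏ y_i ^ (v_i + 1)` of the block `k`; `x_j` is the variable `inl j` and `y_i`
the variable `inr i`. -/
noncomputable def Fib.P (k : Fin (B + 1)) : MvPolynomial (Fin (d + 1) ⊕ Fin s) K :=
  ∏ i with F.b i = k, X (Sum.inr i) ^ (F.v i + 1)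

/-- The sum `S_k = ∑ y_i` of the block `k`. -/
noncomputable def Fib.S (k : Fin (B + 1)) : MvPolynomial (Fin (d + 1) ⊕ Fin s) K :=
  ∑ i with F.b i = k, X (Sum.inr i)

/-- `Q = ∏_{k ≥ 1} (S_k P_k + 1)`. -/
noncomputable def Fib.Q : MvPolynomial (Fin (d + 1) ⊕ Fin s) K :=
  ∏ k : Fin B, (F.S k.succ * F.P k.succ + 1)

/-- `P' = ∏_{k ≥ 1} P_k`. -/
noncomputable def Fib.P' : MvPolynomial (Fin (d + 1) ⊕ Fin s) K := ∏ k : Fin B, F.P k.succ

/-- `Φ` as a polynomial in the `x_j` and `y_i`. -/
noncomputable def Fib.ph (lam : K) : MvPolynomial (Fin (d + 1) ⊕ Fin s) K :=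
  rename Sum.inl (F.Phi lam)

/-- The product of the `y_i`. -/
noncomputable def yy (K : Type*) [Field K] (d s : ℕ) : MvPolynomial (Fin (d + 1) ⊕ Fin s) K :=
  ∏ i, X (Sum.inr i)

/-- The coefficient `P_0 (S_0 Q - Φ P')`. -/
noncomputable def Fib.M (lam : K) : MvPolynomial (Fin (d + 1) ⊕ Fin s) K :=
  F.P 0 * (F.S 0 * F.Q - F.ph lam * F.P')

/-- The variables `x_j` (`inl j`), `y_i` (`inr (inl i)`), `z` (`inr (inr false)`) and `t`
(`inr (inr true)`). -/
abbrev Var (d s : ℕ) : Type := Fin (d + 1) ⊕ (Fin s ⊕ Bool)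

/-- The inclusion of the variables `x_j` and `y_i`. -/
def iv (d s : ℕ) : Fin (d + 1) ⊕ Fin s → Var d s := Sum.map id Sum.inl

/-- The polynomials in `x_j`, `y_i` as polynomials in all variables. -/
noncomputable def inc (K : Type*) [Field K] (d s : ℕ) :
    MvPolynomial (Fin (d + 1) ⊕ Fin s) K →+* MvPolynomial (Var d s) K :=
  (rename (iv d s)).toRingHom

/-- The equation `t z y_1 ⋯ y_s Φ = 1`, which says that `Φ` and the coordinates `z` and `y_i` do not
vanish. -/
noncomputable def Fib.eqt (lam : K) : MvPolynomial (Var d s) K :=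
  X (Sum.inr (Sum.inr true)) * (X (Sum.inr (Sum.inr false)) * inc K d s (yy K d s * F.ph lam)) - 1

/-- The equation `P_0 Q z² + P_0 (S_0 Q - Φ P') z + Q`, that is
`(z + S_0 + 1/(z P_0)) ∏_{k ≥ 1} (S_k + 1/P_k) = Φ`, multiplied by `z P_0 P'`. -/
noncomputable def Fib.eqn (lam : K) : MvPolynomial (Var d s) K :=
  inc K d s (F.P 0 * F.Q) * X (Sum.inr (Sum.inr false)) ^ 2 +
    inc K d s (F.M lam) * X (Sum.inr (Sum.inr false)) + inc K d s F.Q

/-- The coordinate ring of the open part, where `Φ`, `z` and the `y_i` do not vanish, of the variety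
`(z + S_0 + 1/(z P_0)) ∏_{k ≥ 1} (S_k + 1/P_k) = Φ`. -/
def Fib.FRing (lam : K) : Type _ :=
  MvPolynomial (Var d s) K ⧸ Ideal.span {F.eqt lam, F.eqn lam}

noncomputable instance (lam : K) : CommRing (F.FRing lam) :=
  show CommRing (MvPolynomial (Var d s) K ⧸ Ideal.span {F.eqt lam, F.eqn lam}) from inferInstance

variable (lam : K)

/-- The functions on the variety defined by the polynomials. -/
noncomputable def Fib.mkF : MvPolynomial (Var d s) K →+* F.FRing lam :=
  Ideal.Quotient.mk (Ideal.span {F.eqt lam, F.eqn lam})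

theorem Fib.mkF_surjective : Function.Surjective (F.mkF lam) := Ideal.Quotient.mk_surjective

theorem Fib.mkF_eqt : F.mkF lam (F.eqt lam) = 0 :=
  Ideal.Quotient.eq_zero_iff_mem.2 (Ideal.subset_span (Set.mem_insert _ _))

theorem Fib.mkF_eqn : F.mkF lam (F.eqn lam) = 0 :=
  Ideal.Quotient.eq_zero_iff_mem.2 (Ideal.subset_span (Set.mem_insert_of_mem _ rfl))

/-- The universal property of the coordinate ring. -/
noncomputable def Fib.lift {R : Type*} [CommRing R] (f : MvPolynomial (Var d s) K →+* R)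
    (h1 : f (F.eqt lam) = 0) (h2 : f (F.eqn lam) = 0) : F.FRing lam →+* R :=
  Ideal.Quotient.lift (Ideal.span {F.eqt lam, F.eqn lam}) f (by
    intro a ha
    have h : Ideal.span {F.eqt lam, F.eqn lam} ≤ RingHom.ker f := by
      rw [Ideal.span_le]
      rintro x (rfl | rfl)
      · exact h1
      · exact h2
    exact h ha)

theorem Fib.lift_mkF {R : Type*} [CommRing R] (f : MvPolynomial (Var d s) K →+* R)
    (h1 : f (F.eqt lam) = 0) (h2 : f (F.eqn lam) = 0) (p : MvPolynomial (Var d s) K) :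
    F.lift lam f h1 h2 (F.mkF lam p) = f p :=
  Ideal.Quotient.lift_mk _ _ _

/-- The functions of the `x_j` and `y_i` on the variety. -/
noncomputable def Fib.io : MvPolynomial (Fin (d + 1) ⊕ Fin s) K →+* F.FRing lam :=
  (F.mkF lam).comp (inc K d s)

/-- The functions of the `x_j` on the variety. -/
noncomputable def Fib.ix : MvPolynomial (Fin (d + 1)) K →+* F.FRing lam :=
  (F.io lam).comp (rename Sum.inl).toRingHom

/-- The constants in the coordinate ring. -/
noncomputable def Fib.cst : K →+* F.FRing lam := (F.ix lam).comp C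

/-- The coordinates. -/
noncomputable def Fib.co (i : Var d s) : F.FRing lam := F.mkF lam (X i)

theorem Fib.io_X (i : Fin (d + 1) ⊕ Fin s) : F.io lam (X i) = F.co lam (iv d s i) := by
  unfold Fib.io Fib.co inc
  rw [RingHom.comp_apply]
  congr 1
  exact rename_X _ _

theorem Fib.io_ph : F.io lam (F.ph lam) = F.ix lam (F.Phi lam) := rfl

theorem Fib.eqt_zero : F.co lam (Sum.inr (Sum.inr true)) * (F.co lam (Sum.inr (Sum.inr false)) *
    (F.io lam (yy K d s) * F.ix lam (F.Phi lam))) = 1 := by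
  have h := F.mkF_eqt lam
  unfold Fib.eqt at h
  rw [map_sub, map_mul, map_mul, map_one, map_mul, map_mul, sub_eq_zero] at h
  exact h

theorem Fib.eqn_zero : F.io lam (F.P 0) * F.io lam F.Q * F.co lam (Sum.inr (Sum.inr false)) ^ 2 +
    F.io lam (F.P 0) * (F.io lam (F.S 0) * F.io lam F.Q -
      F.ix lam (F.Phi lam) * F.io lam F.P') * F.co lam (Sum.inr (Sum.inr false)) +
    F.io lam F.Q = 0 := by
  have h := F.mkF_eqn lam
  unfold Fib.eqn Fib.M at h
  rw [map_add, map_add, map_mul, map_mul, map_mul, map_pow] at h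
  simp only [map_mul, map_sub] at h
  exact h

theorem Fib.isUnit_all : IsUnit (F.co lam (Sum.inr (Sum.inr false)) *
    (F.io lam (yy K d s) * F.ix lam (F.Phi lam))) :=
  IsUnit.of_mul_eq_one (F.co lam (Sum.inr (Sum.inr true))) (by
    rw [mul_comm]
    exact F.eqt_zero lam)

theorem Fib.isUnit_z : IsUnit (F.co lam (Sum.inr (Sum.inr false))) :=
  isUnit_of_mul_isUnit_left (F.isUnit_all lam)

theorem Fib.isUnit_Phi : IsUnit (F.ix lam (F.Phi lam)) :=
  isUnit_of_mul_isUnit_right (isUnit_of_mul_isUnit_right (F.isUnit_all lam))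

theorem Fib.isUnit_yy : IsUnit (F.io lam (yy K d s)) :=
  isUnit_of_mul_isUnit_left (isUnit_of_mul_isUnit_right (F.isUnit_all lam))

theorem Fib.isUnit_y (i : Fin s) : IsUnit (F.co lam (Sum.inr (Sum.inl i))) := by
  have h := F.isUnit_yy lam
  unfold yy at h
  rw [map_prod] at h
  have h1 := isUnit_of_dvd_unit (Finset.dvd_prod_of_mem (fun i => F.io lam (X (Sum.inr i)))
    (Finset.mem_univ i)) h
  rw [F.io_X] at h1
  exact h1

theorem Fib.isUnit_L (e : Fin (m + 1)) : IsUnit (F.ix lam (lf F.c F.a e)) := by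
  have h := F.isUnit_Phi lam
  unfold Fib.Phi at h
  rw [map_mul, map_mul, map_prod] at h
  have h1 := isUnit_of_mul_isUnit_right (isUnit_of_mul_isUnit_right h)
  have h2 := isUnit_of_dvd_unit (Finset.dvd_prod_of_mem
    (fun e => F.ix lam (lf F.c F.a e ^ (F.w e + 1))) (Finset.mem_univ e)) h1
  rw [map_pow] at h2
  exact isUnit_of_dvd_unit (dvd_pow_self _ (Nat.succ_ne_zero _)) h2

/-- The unit `z`. -/
noncomputable def Fib.uz : (F.FRing lam)ˣ := (F.isUnit_z lam).unit

/-- The units `y_i`. -/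
noncomputable def Fib.uy (i : Fin s) : (F.FRing lam)ˣ := (F.isUnit_y lam i).unit

/-- The units `L_e`. -/
noncomputable def Fib.uL (e : Fin (m + 1)) : (F.FRing lam)ˣ := (F.isUnit_L lam e).unit

/-- The units `κ_i L_{T_i} / L_{h_i}`; `h_i` is the largest index such that the linear parts of the
forms `T` with `T_i` replaced by `h_i` are linearly independent, and `κ_i` is the quotient of the
determinants of these linear parts and of those of the forms `T`. -/
noncomputable def Fib.ux (T : Fin (d + 1) → Fin (m + 1)) (i : Fin (d + 1)) : (F.FRing lam)ˣ :=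
  Units.map (F.cst lam : K →* F.FRing lam) (ku (kap F.c T i)) *
    (F.uL lam (T i) / F.uL lam (hi F.c T i))

/-- The entries `z, y_1, ..., y_s, κ_0 L_{T_0} / L_{h_0}, ..., κ_d L_{T_d} / L_{h_d}`. -/
noncomputable def Fib.ent (T : Fin (d + 1) → Fin (m + 1)) :
    Fin (s + (d + 1) + 1) → (F.FRing lam)ˣ :=
  Fin.cons (F.uz lam) (Fin.append (F.uy lam) (F.ux lam T))

/-- A torus in the complex points over `σ`, at all of which a partial derivative of the equation
(with respect to `z`, one of the `y_i`, or one of the `x_j`) does not vanish. -/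
def Fib.Over (σ : K →+* ℂ) {n : ℕ} (Γ : Torus (F.FRing lam) n) : Prop :=
  (∀ θ (x : K), Γ.e θ (F.cst lam x) = σ x) ∧
  ∀ θ, ∃ i : Var d s, i ≠ Sum.inr (Sum.inr true) ∧
    Γ.e θ (F.mkF lam (pderiv i (F.eqn lam))) ≠ 0

end Pool.Agent.K7.H1.AR
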