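import Pool.Agent.K7.H1.AR.Per
import Pool.Agent.K7.H1.AR.Def
set_option autoImplicit false

/-!
Tori in the base near a vertex, together with circles for the fibre coordinates.
-/

namespace Pool.Agent.K7.H1.AR

open Filter Topology

open Pool.Agent.TH826.MK

open Pool.Agent.TH826.GA (cm lc xv vtx contDiff_xv)

open Pool.Agent.TH826.SX (circ_ne_zero good_circ lw_circ exists_nice Nice)

open Pool.Agent.TH577.UA (mmon psi psi_zero contDiff_psi contDiff_mmon mu Distinct exists_fac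
  contDiff_eval xv_zero good_pow lw_pow mmon_zero_eq)

section nice

variable {n d : ℕ} {δ C : ℝ} {φ : (Fin d → ℂ) × ℂ → ℂ} {Z : (Fin n → ℝ) → (Fin d → ℂ) × ℂ}

theorem good_nice (hZ : ContDiff ℝ 2 Z) (hδ : ∀ θ, ‖Z θ‖ < δ) (hφ : Nice δ C φ) :
    Good fun θ => φ (Z θ) := by
  refine ⟨?_, fun θ => (hφ _ (hδ θ)).2.1⟩
  rw [contDiff_iff_contDiffAt]
  intro θ
  exact (((hφ _ (hδ θ)).1).restrict_scalars ℝ).comp θ hZ.contDiffAt

theorem lw_nice (hZ : ContDiff ℝ 2 Z) (hδ : ∀ θ, ‖Z θ‖ < δ) (hφ : Nice δ C φ) {b : ℝ}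
    (hb : ∀ j θ, ‖fderiv ℝ Z θ (Pi.single j 1)‖ ≤ b) (j : Fin n) (θ : Fin n → ℝ) :
    ‖lw (fun θ => φ (Z θ)) j θ‖ ≤ C * b := by
  have hd : HasFDerivAt Z (fderiv ℝ Z θ) θ :=
    ((hZ.differentiable (by norm_num)) θ).hasFDerivAt
  obtain ⟨h1, h2, -, h3⟩ := hφ _ (hδ θ)
  have h4 : HasFDerivAt φ ((fderiv ℂ φ (Z θ)).restrictScalars ℝ) (Z θ) :=
    ((h1.differentiableAt (by norm_num)).hasFDerivAt).restrictScalars ℝ
  have h5 := (h4.comp θ hd).fderiv
  have h6 : fderiv ℝ (fun θ => φ (Z θ)) θ (Pi.single j 1) =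
      fderiv ℂ φ (Z θ) (fderiv ℝ Z θ (Pi.single j 1)) :=
    DFunLike.congr_fun h5 (Pi.single j 1)
  unfold lw
  rw [h6, norm_div]
  have hpos : 0 < ‖φ (Z θ)‖ := norm_pos_iff.2 h2
  have hb0 : 0 ≤ b := (norm_nonneg _).trans (hb j θ)
  have h7 : ‖fderiv ℂ φ (Z θ) (fderiv ℝ Z θ (Pi.single j 1))‖ ≤ ‖fderiv ℂ φ (Z θ)‖ * b :=
    (ContinuousLinearMap.le_opNorm _ _).trans
      (mul_le_mul_of_nonneg_left (hb j θ) (norm_nonneg _))
  calc _ ≤ ‖fderiv ℂ φ (Z θ)‖ * b / ‖φ (Z θ)‖ := div_le_div_of_nonneg_right h7 hpos.le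
    _ = ‖fderiv ℂ φ (Z θ)‖ / ‖φ (Z θ)‖ * b := by ring
    _ ≤ _ := mul_le_mul_of_nonneg_right h3 hb0

end nice

section zz

variable {s d : ℕ} {ρ : ℝ}

/-- the torus `|ζ_k| = ρ` -/
noncomputable def zz (s d : ℕ) (ρ : ℝ) (θ : Fin (s + (d + 1)) → ℝ) : (Fin d → ℂ) × ℂ :=
  (fun k => circ ρ (θ (Fin.natAdd s k.succ)), circ ρ (θ (Fin.natAdd s 0)))

theorem contDiff_zz (hρ : 0 < ρ) : ContDiff ℝ 2 (zz s d ρ) :=
  (contDiff_pi.2 fun k : Fin d => (good_circ hρ (Fin.natAdd s k.succ)).smooth).prodMk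
    (good_circ hρ (Fin.natAdd s 0)).smooth

theorem norm_zz_le (hρ : 0 < ρ) (θ : Fin (s + (d + 1)) → ℝ) : ‖zz s d ρ θ‖ ≤ ρ := by
  rw [norm_prod_le_iff]
  refine ⟨?_, (norm_circ hρ.le _).le⟩
  rw [pi_norm_le_iff_of_nonneg hρ.le]
  intro k
  exact (norm_circ hρ.le _).le

theorem circ_per (R : ℝ) {n : ℕ} (k : Fin n) (θ : Fin n → ℝ) (i : Fin n) :
    circ R ((θ + Pi.single i 1 : Fin n → ℝ) k) = circ R (θ k) :=
  congrFun (tpt_add_single (fun _ => R) θ i) k

theorem zz_per (θ : Fin (s + (d + 1)) → ℝ) (i : Fin (s + (d + 1))) :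
    zz s d ρ (θ + Pi.single i 1) = zz s d ρ θ := by
  unfold zz
  simp only [circ_per]

theorem norm_two_pi_I : ‖2 * (Real.pi : ℂ) * Complex.I‖ = 2 * Real.pi := by
  rw [norm_mul, norm_mul, Complex.norm_I, Complex.norm_real, Complex.norm_ofNat, mul_one,
    Real.norm_eq_abs, abs_of_pos Real.pi_pos]

theorem norm_fderiv_circ (hρ : 0 < ρ) {n : ℕ} (k j : Fin n) (θ : Fin n → ℝ) :
    ‖fderiv ℝ (fun θ : Fin n → ℝ => circ ρ (θ k)) θ (Pi.single j 1)‖ ≤ 2 * Real.pi * ρ := by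
  have hpi := Real.pi_pos
  have h4 : fderiv ℝ (fun θ : Fin n → ℝ => circ ρ (θ k)) θ (Pi.single j 1) =
      lw (fun θ : Fin n → ℝ => circ ρ (θ k)) j θ * circ ρ (θ k) := by
    unfold lw
    rw [div_mul_cancel₀ _ (circ_ne_zero hρ _)]
  rw [h4, lw_circ hρ]
  split_ifs
  · rw [norm_mul, norm_two_pi_I, norm_circ hρ.le]
  · rw [zero_mul, norm_zero]
    positivity

theorem norm_fderiv_zz (hρ : 0 < ρ) (j : Fin (s + (d + 1))) (θ : Fin (s + (d + 1)) → ℝ) :
    ‖fderiv ℝ (zz s d ρ) θ (Pi.single j 1)‖ ≤ 2 * Real.pi * ρ := by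
  have hd : HasFDerivAt (zz s d ρ) (fderiv ℝ (zz s d ρ) θ) θ :=
    (((contDiff_zz hρ).differentiable (by norm_num)) θ).hasFDerivAt
  have hpi := Real.pi_pos
  have hpos : 0 ≤ 2 * Real.pi * ρ := by positivity
  rw [norm_prod_le_iff]
  constructor
  · rw [pi_norm_le_iff_of_nonneg hpos]
    intro k
    have h1 := (((ContinuousLinearMap.proj (R := ℝ) (φ := fun _ : Fin d => ℂ) k).comp
      (ContinuousLinearMap.fst ℝ (Fin d → ℂ) ℂ)).hasFDerivAt).comp θ hd
    have h2 := h1.fderiv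
    have h3 : (fderiv ℝ (zz s d ρ) θ (Pi.single j 1)).1 k =
        fderiv ℝ (fun θ : Fin (s + (d + 1)) → ℝ => circ ρ (θ (Fin.natAdd s k.succ))) θ
          (Pi.single j 1) := (DFunLike.congr_fun h2 (Pi.single j 1)).symm
    rw [h3]
    exact norm_fderiv_circ hρ _ _ _
  · have h1 := ((ContinuousLinearMap.snd ℝ (Fin d → ℂ) ℂ).hasFDerivAt).comp θ hd
    have h2 := h1.fderiv
    have h3 : (fderiv ℝ (zz s d ρ) θ (Pi.single j 1)).2 =
        fderiv ℝ (fun θ : Fin (s + (d + 1)) → ℝ => circ ρ (θ (Fin.natAdd s 0))) θ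
          (Pi.single j 1) := (DFunLike.congr_fun h2 (Pi.single j 1)).symm
    rw [h3]
    exact norm_fderiv_circ hρ _ _ _

/-- the winding numbers of a monomial -/
noncomputable def row (s : ℕ) {d : ℕ} (μ : Fin (d + 1) → ℕ) : Fin (s + (d + 1)) → ℝ :=
  Fin.append (fun _ => 0) fun k => (μ k : ℝ)

theorem mmon_zz (μ : Fin (d + 1) → ℕ) (θ : Fin (s + (d + 1)) → ℝ) :
    mmon μ (zz s d ρ θ) = ∏ k, circ ρ (θ (Fin.natAdd s k)) ^ μ k := by
  rw [Fin.prod_univ_succ]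
  rfl

theorem good_mmon (hρ : 0 < ρ) (μ : Fin (d + 1) → ℕ) : Good fun θ => mmon μ (zz s d ρ θ) := by
  simp only [mmon_zz]
  exact good_prod Finset.univ fun k => good_pow (good_circ hρ _) (μ k)

theorem lw_mmon (hρ : 0 < ρ) (μ : Fin (d + 1) → ℕ) (j : Fin (s + (d + 1)))
    (θ : Fin (s + (d + 1)) → ℝ) : lw (fun θ => mmon μ (zz s d ρ θ)) j θ =
      2 * Real.pi * Complex.I * row s μ j := by
  classical
  simp only [mmon_zz]
  rw [lw_prod Finset.univ (fun k => good_pow (good_circ hρ (Fin.natAdd s k)) (μ k))]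
  have h : ∀ k, lw (fun θ : Fin (s + (d + 1)) → ℝ => circ ρ (θ (Fin.natAdd s k)) ^ μ k) j θ =
      if j = Fin.natAdd s k then μ k * (2 * Real.pi * Complex.I) else 0 := by
    intro k
    rw [lw_pow (good_circ hρ _), lw_circ hρ]
    split_ifs
    · rfl
    · rw [mul_zero]
  simp only [h]
  refine Fin.addCases (fun i => ?_) (fun k => ?_) j
  · unfold row
    rw [Fin.append_left, Complex.ofReal_zero, mul_zero]
    refine Finset.sum_eq_zero fun k _ => if_neg fun h => ?_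
    have := congrArg Fin.val h
    simp at this
    omega
  · unfold row
    rw [Fin.append_right, Finset.sum_eq_single k]
    · rw [if_pos rfl]
      push_cast
      ring
    · intro l _ hl
      refine if_neg fun h => hl ?_
      exact (Fin.natAdd_injective _ _ h).symm
    · intro h
      exact absurd (Finset.mem_univ k) h

end zz

section blocks

variable {K : Type*} [Field K] {d m s B : ℕ} (F : Fib K d m s B)

/-- the value of `P_k` -/
noncomputable def Fib.Pv (k : Fin (B + 1)) (y : Fin s → ℂ) : ℂ :=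
  ∏ i with F.b i = k, y i ^ (F.v i + 1)

/-- the value of `S_k` -/
noncomputable def Fib.Sv (k : Fin (B + 1)) (y : Fin s → ℂ) : ℂ := ∑ i with F.b i = k, y i

theorem block_ne (k : Fin (B + 1)) {y : Fin s → ℂ} (hy : ∀ i, ‖y i‖ = 2 ^ ((i : ℕ) + 2)) :
    F.Sv k y + (F.Pv k y)⁻¹ ≠ 0 := by
  classical
  unfold Fib.Sv Fib.Pv
  rcases (Finset.univ.filter fun i => F.b i = k).eq_empty_or_nonempty with h | h
  · rw [h]
    simp
  · set J := Finset.univ.filter fun i => F.b i = k with hJ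
    set i0 := J.max' h with hi0
    have hi0J : i0 ∈ J := Finset.max'_mem J h
    have hlt : ∀ i ∈ J.erase i0, i < i0 := fun i hi =>
      lt_of_le_of_ne (Finset.le_max' J i (Finset.mem_of_mem_erase hi)) (Finset.ne_of_mem_erase hi)
    have h1 : (∑ i ∈ J.erase i0, 2 ^ (i : ℕ)) < 2 ^ (i0 : ℕ) := by
      have h2 := Nat.geomSum_lt (m := 2) (n := (i0 : ℕ))
        (s := (J.erase i0).map Fin.valEmbedding) le_rfl (by
        intro k hk
        rw [Finset.mem_map] at hk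
        obtain ⟨i, hi, rfl⟩ := hk
        exact hlt i hi)
      rwa [Finset.sum_map] at h2
    have h3 : ((∑ i ∈ J.erase i0, 2 ^ (i : ℕ) : ℕ) : ℝ) + 1 ≤ 2 ^ (i0 : ℕ) := by
      exact_mod_cast h1
    push_cast at h3
    have hS : ‖∑ i ∈ J.erase i0, y i‖ + 4 ≤ ‖y i0‖ := by
      have h4 : ‖∑ i ∈ J.erase i0, y i‖ ≤ ∑ i ∈ J.erase i0, (2 : ℝ) ^ ((i : ℕ) + 2) := by
        refine (norm_sum_le _ _).trans (le_of_eq ?_)
        exact Finset.sum_congr rfl fun i _ => hy i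
      have h5 : ∑ i ∈ J.erase i0, (2 : ℝ) ^ ((i : ℕ) + 2) =
          4 * ∑ i ∈ J.erase i0, (2 : ℝ) ^ (i : ℕ) := by
        rw [Finset.mul_sum]
        exact Finset.sum_congr rfl fun i _ => by rw [pow_add]; ring
      rw [hy, pow_add]
      linarith
    have hP : ‖(∏ i ∈ J, y i ^ (F.v i + 1))⁻¹‖ ≤ 1 := by
      rw [norm_inv, norm_prod, ← Finset.prod_inv_distrib]
      refine Finset.prod_le_one (fun i _ => by positivity) fun i _ => ?_
      rw [norm_pow, hy]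
      refine inv_le_one_of_one_le₀ (one_le_pow₀ (one_le_pow₀ (by norm_num)))
    intro h0
    rw [← Finset.add_sum_erase J _ hi0J] at h0
    have h6 : y i0 = -(∑ i ∈ J.erase i0, y i + (∏ i ∈ J, y i ^ (F.v i + 1))⁻¹) := by
      linear_combination h0
    have h7 : ‖y i0‖ ≤ ‖∑ i ∈ J.erase i0, y i‖ + 1 := by
      rw [h6, norm_neg]
      exact (norm_add_le _ _).trans (add_le_add le_rfl hP)
    linarith

end blocks

section base

variable {K : Type*} [Field K] {d m s B : ℕ}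

/-- A torus in the product of the base, near a vertex, and of the space of the `y_i`. -/
structure Base (σ : K →+* ℂ) (F : Fib K d m s B) (T : Fin (d + 1) → Fin (m + 1)) (ε : ℝ)
    (x : (Fin (s + (d + 1)) → ℝ) → Fin (d + 1) → ℂ)
    (y : (Fin (s + (d + 1)) → ℝ) → Fin s → ℂ) : Prop where
  hx : ∀ j, ContDiff ℝ 2 fun θ => x θ j
  px : ∀ θ i, x (θ + Pi.single i 1) = x θ
  hy : ∀ i, Good fun θ => y θ i
  py : ∀ θ i, y (θ + Pi.single i 1) = y θ
  blk : ∀ k θ, F.Sv k (y θ) + (F.Pv k (y θ))⁻¹ ≠ 0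
  hg : ∀ θ, MvPolynomial.eval₂ σ (x θ) F.g ≠ 0
  hL : ∀ e θ, lc σ F.c F.a (x θ) e ≠ 0
  ly : ∀ i j θ, lw (fun θ => y θ i) j θ = 2 * Real.pi * Complex.I *
    ((if j = Fin.castAdd (d + 1) i then 1 else 0 : ℝ) : ℂ)
  lL : ∀ e j θ, ‖lw (fun θ => lc σ F.c F.a (x θ) e) j θ -
    2 * Real.pi * Complex.I * row s (mu F.c F.a T e) j‖ ≤ ε

theorem exists_base (σ : K →+* ℂ) (F : Fib K d m s B) {T : Fin (d + 1) → Fin (m + 1)}
    (hT : (cm F.c T).det ≠ 0) (hD : Distinct F.c F.a)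
    (hg : MvPolynomial.eval (vtx F.c F.a T) F.g ≠ 0) {ε : ℝ} (hε : 0 < ε) :
    ∃ x y, Base σ F T ε x y := by
  classical
  choose h hfac hcd hne using fun e => exists_fac (a := F.a) σ hT hD e
  set hgf : (Fin d → ℂ) × ℂ → ℂ :=
    fun y => MvPolynomial.eval₂ σ (xv σ F.c F.a T (psi y)) F.g with hhgf
  have hgc : ContDiff ℂ 2 hgf := (contDiff_eval σ F.g T).comp contDiff_psi
  have hg0 : hgf 0 ≠ 0 := by
    show MvPolynomial.eval₂ σ (xv σ F.c F.a T (psi 0)) F.g ≠ 0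
    rw [psi_zero, xv_zero]
    have h1 := MvPolynomial.eval₂_comp_left σ (RingHom.id K) (vtx F.c F.a T) F.g
    rw [RingHom.comp_id] at h1
    have h2 : MvPolynomial.eval₂ σ (fun j => σ (vtx F.c F.a T j)) F.g =
        σ (MvPolynomial.eval (vtx F.c F.a T) F.g) := h1.symm
    rw [h2]
    exact (map_ne_zero σ).2 hg
  choose C hC using fun e => exists_nice (hcd e).contDiffAt (hne e)
  have hall := (eventually_all.2 fun e => hC e).and (hgc.continuous.continuousAt.eventually_ne hg0)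
  obtain ⟨δ, hδ, hball⟩ := Metric.eventually_nhds_iff.1 hall
  set C0 : ℝ := ∑ e, |C e| with hC0
  have hC00 : 0 ≤ C0 := Finset.sum_nonneg fun k _ => abs_nonneg _
  have hCle : ∀ e, C e ≤ C0 := fun e =>
    (le_abs_self _).trans (Finset.single_le_sum (f := fun e => |C e|)
      (fun j _ => abs_nonneg _) (Finset.mem_univ e))
  have hnice : ∀ e, Nice δ C0 (h e) := by
    intro e ζ hζ
    obtain ⟨h', -⟩ := hball (y := ζ) (by rwa [dist_zero_right])
    obtain ⟨a1, a2, a3, a4⟩ := h' e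
    exact ⟨a1, a2, a3.trans (hCle e), a4.trans (hCle e)⟩
  have hpi := Real.pi_pos
  set ρ : ℝ := min (δ / 2) (ε / (2 * Real.pi * (C0 + 1))) with hρdef
  have hρ : 0 < ρ := lt_min (by linarith) (by positivity)
  have hρδ : ρ < δ := (min_le_left _ _).trans_lt (by linarith)
  have hρε : C0 * (2 * Real.pi * ρ) ≤ ε := by
    have h1 : ρ ≤ ε / (2 * Real.pi * (C0 + 1)) := min_le_right _ _
    rw [le_div_iff₀ (by positivity)] at h1
    calc C0 * (2 * Real.pi * ρ) ≤ (C0 + 1) * (2 * Real.pi * ρ) :=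
          mul_le_mul_of_nonneg_right (by linarith) (by positivity)
      _ = ρ * (2 * Real.pi * (C0 + 1)) := by ring
      _ ≤ ε := h1
  have hz : ∀ θ, ‖zz s d ρ θ‖ < δ := fun θ => (norm_zz_le hρ θ).trans_lt hρδ
  have hR : ∀ i : Fin s, (0 : ℝ) < 2 ^ ((i : ℕ) + 2) := fun i => by positivity
  have hxc : ContDiff ℝ 2 fun θ => xv σ F.c F.a T (psi (zz s d ρ θ)) :=
    (((contDiff_xv σ T).comp contDiff_psi).restrict_scalars ℝ).comp (contDiff_zz hρ)
  have hfe : ∀ e, (fun θ => lc σ F.c F.a (xv σ F.c F.a T (psi (zz s d ρ θ))) e) = fun θ =>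
      mmon (mu F.c F.a T e) (zz s d ρ θ) * h e (zz s d ρ θ) := fun e => funext fun θ => hfac e _
  have hgood : ∀ e, Good fun θ => h e (zz s d ρ θ) := fun e =>
    good_nice (contDiff_zz hρ) hz (hnice e)
  refine ⟨fun θ => xv σ F.c F.a T (psi (zz s d ρ θ)),
    fun θ i => circ (2 ^ ((i : ℕ) + 2)) (θ (Fin.castAdd (d + 1) i)), ?_⟩
  constructor
  · exact fun j => contDiff_pi.1 hxc j
  · intro θ i
    rw [zz_per]
  · exact fun i => good_circ (hR i) _
  · intro θ i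
    funext k
    exact circ_per _ _ _ _
  · intro k θ
    exact block_ne F k fun i => norm_circ (hR i).le _
  · intro θ
    exact (hball (y := zz s d ρ θ) (by rw [dist_zero_right]; exact hz θ)).2
  · intro e θ
    rw [congrFun (hfe e) θ]
    exact mul_ne_zero ((good_mmon hρ _).ne_zero θ) ((hgood e).ne_zero θ)
  · intro i j θ
    have h1 := lw_circ (hR i) (Fin.castAdd (d + 1) i) j θ
    refine h1.trans ?_
    split_ifs
    · rw [Complex.ofReal_one, mul_one]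
    · rw [Complex.ofReal_zero, mul_zero]
  · intro e j θ
    rw [hfe e, lw_mul (good_mmon hρ _) (hgood e), lw_mmon hρ, add_sub_cancel_left]
    exact (lw_nice (contDiff_zz hρ) hz (hnice e) (fun j θ => norm_fderiv_zz hρ j θ)
      j θ).trans hρε

end base

end Pool.Agent.K7.H1.AR
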