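import Pool.Agent.TH577.UA.Alg
set_option autoImplicit false

/-!
The denominators of the constants of an arrangement of hyperplanes.
-/

namespace Pool.Agent.K7.H1.AR

open Pool.Agent.TH826.GA (cm al be)

open Pool.Agent.TH577.UA (kap)

variable {K : Type*} [Field K] {d m : ℕ}

/-- `D` clears the denominators of the constants of the arrangement and of `g`. -/
structure Clr (g : MvPolynomial (Fin (d + 1)) K) (c : Fin (m + 1) → Fin (d + 1) → K)
    (a : Fin (m + 1) → K) (D : ℕ) : Prop where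
  ne : D ≠ 0
  clr_g : ∀ k, IsIntegral ℤ ((D : K) * g.coeff k)
  clr_a : ∀ e, IsIntegral ℤ ((D : K) * a e)
  clr_al : ∀ (T : Fin (d + 1) → Fin (m + 1)) e l, IsIntegral ℤ ((D : K) * al c T e l)
  clr_be : ∀ (T : Fin (d + 1) → Fin (m + 1)) e, IsIntegral ℤ ((D : K) * be c a T e)
  clr_inv : ∀ (T : Fin (d + 1) → Fin (m + 1)) i j, IsIntegral ℤ ((D : K) * (cm c T)⁻¹ i j)
  clr_kap : ∀ (T : Fin (d + 1) → Fin (m + 1)) i, IsIntegral ℤ ((D : K) * kap c T i)
  clr_kinv : ∀ (T : Fin (d + 1) → Fin (m + 1)) i, IsIntegral ℤ ((D : K) * (kap c T i)⁻¹)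

/-- the exponent of the denominators in `λ` -/
def expo (m : ℕ) (g : MvPolynomial (Fin (d + 1)) K) (w : Fin (m + 1) → ℕ) : ℕ :=
  (2 * m + 3) * g.totalDegree + (2 * m + 3) * (∑ e, (w e + 1)) + 2

end Pool.Agent.K7.H1.AR
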