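import Pool.Agent.K7.H1.AR.Base
set_option autoImplicit false

/-!
Complex points and tori of the varieties.
-/

namespace Pool.Agent.K7.H1.AR

open MvPolynomial

open Pool.Agent.TH826.MK (Torus)

open Pool.Agent.TH826.GA (lc lf eval_lf ku coe_ku)

open Pool.Agent.TH577.UA (hi kap kap_ne)

variable {K : Type*} [Field K] {d m s B : ℕ} {F : Fib K d m s B} {lam : K} {σ : K →+* ℂ}

/-- the point with the coordinates `x`, `y`, `z`, `t` -/
def pt (x : Fin (d + 1) → ℂ) (y : Fin s → ℂ) (z t : ℂ) : Var d s → ℂ :=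
  Sum.elim x (Sum.elim y fun b => cond b t z)

variable {x : Fin (d + 1) → ℂ} {y : Fin s → ℂ} {z t : ℂ}

theorem eval_inc (p : MvPolynomial (Fin (d + 1) ⊕ Fin s) K) :
    eval₂Hom σ (pt x y z t) (inc K d s p) = eval₂Hom σ (Sum.elim x y) p := by
  show eval₂ σ (pt x y z t) (rename (iv d s) p) = eval₂ σ (Sum.elim x y) p
  rw [eval₂_rename]
  congr 1
  funext i
  rcases i with i | i
  · rfl
  · rfl

theorem eval_P (k : Fin (B + 1)) : eval₂Hom σ (Sum.elim x y) (F.P k) = F.Pv k y := by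
  unfold Fib.P Fib.Pv
  rw [map_prod]
  refine Finset.prod_congr rfl fun i _ => ?_
  rw [map_pow]
  simp

theorem eval_S (k : Fin (B + 1)) : eval₂Hom σ (Sum.elim x y) (F.S k) = F.Sv k y := by
  unfold Fib.S Fib.Sv
  rw [map_sum]
  refine Finset.sum_congr rfl fun i _ => ?_
  simp

theorem eval_Q : eval₂Hom σ (Sum.elim x y) F.Q =
    ∏ k : Fin B, (F.Sv k.succ y * F.Pv k.succ y + 1) := by
  unfold Fib.Q
  rw [map_prod]
  refine Finset.prod_congr rfl fun i _ => ?_
  rw [map_add, map_mul, eval_S, eval_P, map_one]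

theorem eval_P' : eval₂Hom σ (Sum.elim x y) F.P' = ∏ k : Fin B, F.Pv k.succ y := by
  unfold Fib.P'
  rw [map_prod]
  exact Finset.prod_congr rfl fun i _ => eval_P _

theorem eval_yy : eval₂Hom σ (Sum.elim x y) (yy K d s) = ∏ i, y i := by
  unfold yy
  rw [map_prod]
  refine Finset.prod_congr rfl fun i _ => ?_
  simp

/-- the value of `Φ` -/
noncomputable def Fib.Fv (F : Fib K d m s B) (σ : K →+* ℂ) (lam : K) (x : Fin (d + 1) → ℂ) : ℂ :=
  σ lam * (eval₂ σ x F.g * ∏ e, lc σ F.c F.a x e ^ (F.w e + 1))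

theorem eval_ph : eval₂Hom σ (Sum.elim x y) (F.ph lam) = F.Fv σ lam x := by
  unfold Fib.ph Fib.Fv Fib.Phi
  show eval₂ σ (Sum.elim x y) (rename Sum.inl _) = _
  rw [eval₂_rename]
  have e : (Sum.elim x y : Fin (d + 1) ⊕ Fin s → ℂ) ∘ Sum.inl = x := rfl
  rw [e, eval₂_mul, eval₂_mul, eval₂_C, eval₂_prod]
  simp only [eval₂_pow, eval_lf]

/-- the complex points of the variety -/
structure IsPt (F : Fib K d m s B) (σ : K →+* ℂ) (lam : K) (x : Fin (d + 1) → ℂ) (y : Fin s → ℂ)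
    (z t : ℂ) : Prop where
  ht : t * (z * ((∏ i, y i) * F.Fv σ lam x)) = 1
  hz : F.Pv 0 y * (∏ k : Fin B, (F.Sv k.succ y * F.Pv k.succ y + 1)) * z ^ 2 +
    F.Pv 0 y * (F.Sv 0 y * (∏ k : Fin B, (F.Sv k.succ y * F.Pv k.succ y + 1)) -
      F.Fv σ lam x * ∏ k : Fin B, F.Pv k.succ y) * z +
    ∏ k : Fin B, (F.Sv k.succ y * F.Pv k.succ y + 1) = 0

theorem IsPt.eval_eqt (h : IsPt F σ lam x y z t) :
    eval₂Hom σ (pt x y z t) (F.eqt lam) = 0 := by
  unfold Fib.eqt
  rw [map_sub, map_mul, map_mul, eval_inc, map_one, map_mul, eval_yy, eval_ph, sub_eq_zero,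
    eval₂Hom_X', eval₂Hom_X']
  exact h.ht

theorem IsPt.eval_eqn (h : IsPt F σ lam x y z t) :
    eval₂Hom σ (pt x y z t) (F.eqn lam) = 0 := by
  unfold Fib.eqn Fib.M
  rw [map_add, map_add, map_mul (eval₂Hom σ (pt x y z t)), map_mul (eval₂Hom σ (pt x y z t)),
    eval_inc, eval_inc, eval_inc, map_pow, map_mul, map_mul,
    map_sub, map_mul, map_mul, eval_P, eval_Q, eval_S, eval_ph, eval_P', eval₂Hom_X']
  exact h.hz

/-- the evaluation at a complex point -/
noncomputable def IsPt.ev (h : IsPt F σ lam x y z t) : F.FRing lam →+* ℂ :=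
  F.lift lam (eval₂Hom σ (pt x y z t)) h.eval_eqt h.eval_eqn

theorem IsPt.ev_mk (h : IsPt F σ lam x y z t) (p : MvPolynomial (Var d s) K) :
    h.ev (F.mkF lam p) = eval₂Hom σ (pt x y z t) p := F.lift_mkF lam _ _ _ p

theorem IsPt.ev_cst (h : IsPt F σ lam x y z t) (r : K) : h.ev (F.cst lam r) = σ r := by
  have e : F.cst lam r = F.mkF lam (C r) := by
    show F.mkF lam (inc K d s (rename Sum.inl (C r))) = _
    congr 1
    show rename (iv d s) (rename Sum.inl (C r)) = _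
    rw [rename_C, rename_C]
  rw [e, h.ev_mk]
  simp

theorem IsPt.ev_uz (h : IsPt F σ lam x y z t) : h.ev (F.uz lam : F.FRing lam) = z := by
  show h.ev (F.mkF lam (X (Sum.inr (Sum.inr false)))) = z
  rw [h.ev_mk, eval₂Hom_X']
  rfl

theorem IsPt.ev_uy (h : IsPt F σ lam x y z t) (i : Fin s) :
    h.ev (F.uy lam i : F.FRing lam) = y i := by
  show h.ev (F.mkF lam (X (Sum.inr (Sum.inl i)))) = y i
  rw [h.ev_mk, eval₂Hom_X']
  rfl

theorem IsPt.ev_uL (h : IsPt F σ lam x y z t) (e : Fin (m + 1)) :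
    h.ev (F.uL lam e : F.FRing lam) = lc σ F.c F.a x e := by
  show h.ev (F.mkF lam (inc K d s (rename Sum.inl (lf F.c F.a e)))) = _
  rw [h.ev_mk, eval_inc]
  show eval₂ σ (Sum.elim x y) (rename Sum.inl _) = _
  rw [eval₂_rename]
  have e' : (Sum.elim x y : Fin (d + 1) ⊕ Fin s → ℂ) ∘ Sum.inl = x := rfl
  rw [e', eval_lf]

theorem IsPt.ev_congr {x' : Fin (d + 1) → ℂ} {y' : Fin s → ℂ} {z' t' : ℂ}
    (h : IsPt F σ lam x y z t) (h' : IsPt F σ lam x' y' z' t') (hx : x = x') (hy : y = y')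
    (hz : z = z') (ht : t = t') : h.ev = h'.ev := by
  subst hx hy hz ht
  rfl

theorem contDiff_eval₂ {n : ℕ} {ι : Type*} {u : (Fin n → ℝ) → ι → ℂ}
    (hu : ∀ i, ContDiff ℝ 2 fun θ => u θ i) (p : MvPolynomial ι K) :
    ContDiff ℝ 2 fun θ => eval₂Hom σ (u θ) p := by
  induction p using MvPolynomial.induction_on with
  | C c => simpa using contDiff_const
  | add p q hp hq => simpa using hp.add hq
  | mul_X p k hp => simpa using hp.mul (hu k)

/-- The torus. -/
noncomputable def mkTor {n : ℕ} {x : (Fin n → ℝ) → Fin (d + 1) → ℂ}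
    {y : (Fin n → ℝ) → Fin s → ℂ} {z t : (Fin n → ℝ) → ℂ} (hx : ∀ j, ContDiff ℝ 2 fun θ => x θ j)
    (hy : ∀ j, ContDiff ℝ 2 fun θ => y θ j) (hz : ContDiff ℝ 2 z) (ht : ContDiff ℝ 2 t)
    (px : ∀ θ i, x (θ + Pi.single i 1) = x θ) (py : ∀ θ i, y (θ + Pi.single i 1) = y θ)
    (pz : ∀ θ i, z (θ + Pi.single i 1) = z θ) (pt' : ∀ θ i, t (θ + Pi.single i 1) = t θ)
    (h : ∀ θ, IsPt F σ lam (x θ) (y θ) (z θ) (t θ)) : Torus (F.FRing lam) n where
  e θ := (h θ).ev
  smooth f := by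
    obtain ⟨p, rfl⟩ := F.mkF_surjective lam f
    simp only [IsPt.ev_mk]
    refine contDiff_eval₂ (fun i => ?_) p
    rcases i with i | i | i
    · exact hx i
    · exact hy i
    · cases i
      · exact hz
      · exact ht
  periodic θ i := IsPt.ev_congr _ _ (px θ i) (py θ i) (pz θ i) (pt' θ i)

theorem pderiv_inc (p : MvPolynomial (Fin (d + 1) ⊕ Fin s) K) :
    pderiv (Sum.inr (Sum.inr false)) (inc K d s p) = 0 := by
  show pderiv (Sum.inr (Sum.inr false)) (rename (iv d s) p) = 0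
  induction p using MvPolynomial.induction_on with
  | C c => rw [rename_C, pderiv_C]
  | add p q hp hq => rw [map_add, map_add, hp, hq, add_zero]
  | mul_X p k hp =>
    rw [map_mul, Derivation.leibniz, hp, rename_X, pderiv_X_of_ne, smul_zero, smul_zero, add_zero]
    rcases k with k | k
    · exact fun h => by cases h
    · exact fun h => by cases h

theorem pderiv_eqn : pderiv (Sum.inr (Sum.inr false)) (F.eqn lam) =
    2 * inc K d s (F.P 0 * F.Q) * X (Sum.inr (Sum.inr false)) + inc K d s (F.M lam) := by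
  unfold Fib.eqn
  rw [map_add, map_add, Derivation.leibniz, Derivation.leibniz, pderiv_inc, pderiv_inc, pderiv_inc,
    Derivation.leibniz_pow, pderiv_X_self]
  simp only [smul_eq_mul, mul_one, add_zero, Nat.add_one_sub_one, pow_one, mul_zero,
    nsmul_eq_mul]
  push_cast
  ring

theorem IsPt.ev_pderiv (h : IsPt F σ lam x y z t) :
    h.ev (F.mkF lam (pderiv (Sum.inr (Sum.inr false)) (F.eqn lam))) =
      2 * (F.Pv 0 y * ∏ k : Fin B, (F.Sv k.succ y * F.Pv k.succ y + 1)) * z +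
      F.Pv 0 y * (F.Sv 0 y * (∏ k : Fin B, (F.Sv k.succ y * F.Pv k.succ y + 1)) -
      F.Fv σ lam x * ∏ k : Fin B, F.Pv k.succ y) := by
  rw [h.ev_mk, pderiv_eqn, map_add, map_mul, map_mul, eval_inc, eval_inc, map_ofNat, map_mul,
    eval_P, eval_Q, eval₂Hom_X']
  unfold Fib.M
  rw [map_mul, map_sub, map_mul, map_mul, eval_P, eval_Q, eval_S, eval_ph, eval_P']
  rfl

end Pool.Agent.K7.H1.AR
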