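import Pool.Agent.K7.H1.AR.Tor
set_option autoImplicit false

/-!
The regulators of the symbols of the bases without broken circuits, for large `λ`.
-/

namespace Pool.Agent.K7.H1.AR

open Pool.Agent.TH826.MK

open Pool.Agent.TH826.GA (cm vtx)

open Pool.Agent.TH577.UA (hi Ix Distinct lead lead_same lead_other det_ne_zero_of_tri)

open Pool.Agent.TH826.SX (det_ne_zero_near)

variable {K : Type*} [Field K] {d m s B : ℕ}

theorem exists_tori (σ : K →+* ℂ) (F : Fib K d m s B) (hD : Distinct F.c F.a)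
    (hg : ∀ T : Fin (d + 1) → Fin (m + 1), (cm F.c T).det ≠ 0 →
      MvPolynomial.eval (vtx F.c F.a T) F.g ≠ 0) :
    ∃ C : ℝ, 1 ≤ C ∧ ∀ lam : K, C ≤ ‖σ lam‖ →
      ∃ Γ : Ix F.c F.a → Torus (F.FRing lam) (s + (d + 1)),
        (∀ T, F.Over lam σ (Γ T)) ∧
        (Matrix.of fun T T' : Ix F.c F.a =>
          (Γ T).reg (symb (F.ent lam T'.1))).det ≠ 0 := by
  classical
  have hex := fun T : Ix F.c F.a => fun ε : ℝ => fun hε : 0 < ε => by
    haveI : Nonempty (Ix F.c F.a) := ⟨T⟩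
    exact exists_torus σ F T.2.2.1 hD (hg T.1 T.2.2.1)
      (fun T' : Ix F.c F.a => T'.1) (fun T' => T'.2.2.1) hε
  set D : ℝ := (2 * Real.pi) ^ (s + (d + 1)) with hDdef
  have hD0 : D ≠ 0 := by
    have := Real.pi_pos
    positivity
  set M0 : Matrix (Ix F.c F.a) (Ix F.c F.a) ℝ := Matrix.of fun T T' =>
    D * lead F.c F.a T.1 T'.1 (hi F.c T'.1) with hM0
  have hM : M0.det ≠ 0 := by
    have h1 : M0.det = (∏ _T : Ix F.c F.a, D) *
        (Matrix.of fun T T' : Ix F.c F.a => lead F.c F.a T.1 T'.1 (hi F.c T'.1)).det := by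
      rw [← Matrix.det_mul_column]
      rfl
    rw [h1]
    refine mul_ne_zero (Finset.prod_ne_zero_iff.2 fun T _ => hD0) ?_
    refine det_ne_zero_of_tri (fun T : Ix F.c F.a => ∑ l, (T.1 l : ℕ)) _ (fun T => ?_)
      (fun T T' h => ?_)
    · rw [Matrix.of_apply]
      exact lead_same T.2
    · rw [Matrix.of_apply] at h
      rcases lead_other T.2 T'.2 h with h1 | h1
      · exact Or.inl (Subtype.ext h1)
      · exact Or.inr h1
  obtain ⟨δ, hδ, hdet⟩ := det_ne_zero_near M0 hM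
  choose Λ hΛ1 hΛ using fun T : Ix F.c F.a => hex T (δ / 2) (by linarith)
  set C : ℝ := ∑ T, |Λ T| + 2 with hC
  have hsum : 0 ≤ ∑ T, |Λ T| := Finset.sum_nonneg fun J _ => abs_nonneg _
  have hΛC : ∀ T, Λ T ≤ C := by
    intro T
    have h1 := Finset.single_le_sum (f := fun T => |Λ T|) (fun T _ => abs_nonneg _)
      (Finset.mem_univ T)
    have h2 := le_abs_self (Λ T)
    have h3 : |Λ T| ≤ ∑ T, |Λ T| := h1
    linarith
  refine ⟨C, by linarith, fun lam hlam => ?_⟩
  choose Γ hΓ1 hΓ2 using fun T => hΛ T lam ((hΛC T).trans hlam)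
  refine ⟨Γ, hΓ1, ?_⟩
  have hs : Real.log ‖σ lam‖ ≠ 0 := by
    have : 0 < Real.log ‖σ lam‖ := Real.log_pos (by linarith)
    linarith
  set S : ℝ := Real.log ‖σ lam‖ with hsdef
  have h1 : (Matrix.of fun T T' : Ix F.c F.a =>
      (Γ T).reg (symb (F.ent lam T'.1)) / S).det ≠ 0 := by
    refine hdet _ fun T T' => ?_
    rw [hM0, Matrix.of_apply, Matrix.of_apply]
    exact lt_of_le_of_lt (hΓ2 T T') (show δ / 2 < δ by linarith)
  have h2 : (Matrix.of fun T T' : Ix F.c F.a =>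
      (Γ T).reg (symb (F.ent lam T'.1))) =
      S • (Matrix.of fun T T' : Ix F.c F.a =>
        (Γ T).reg (symb (F.ent lam T'.1)) / S) := by
    ext T T'
    rw [Matrix.smul_apply, Matrix.of_apply, Matrix.of_apply, smul_eq_mul]
    field_simp
  rw [h2, Matrix.det_smul]
  exact mul_ne_zero (pow_ne_zero _ hs) h1

end Pool.Agent.K7.H1.AR
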