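import Pool.Agent.TH826.SX.Final
set_option autoImplicit false

/-!
An estimate for the regulator integral: the logarithm of the first function is large, those of the
other functions are small.
-/

namespace Pool.Agent.K7.H1.AR

open MeasureTheory Set

open Pool.Agent.TH826.MK

open Pool.Agent.TH826.SX (det_near abs_integral_sub_le)

variable {d : ℕ}

/-- a small determinant -/
theorem det_small {k : ℕ} {C δ : ℝ} (hC : 1 ≤ C) (hδ : 0 < δ) (N : Fin (k + 1) → Fin (k + 1) → ℂ)
    (h0 : ∀ l, ‖N l 0‖ ≤ δ) (h1 : ∀ l (j : Fin k), ‖N l j.succ‖ ≤ C) :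
    ‖(Matrix.of N).det‖ ≤ δ * ((k + 1).factorial * C ^ (k + 1)) := by
  set v : Fin (k + 1) → ℂ := Fin.cons (δ : ℂ) fun _ => 1 with hv
  set N' : Fin (k + 1) → Fin (k + 1) → ℂ := fun l => Fin.cons (N l 0 / δ) fun j => N l j.succ
    with hN'
  have hδc : (δ : ℂ) ≠ 0 := by exact_mod_cast hδ.ne'
  have e : Matrix.of N = Matrix.of fun l j => v j * (Matrix.of N') l j := by
    ext l j
    rw [Matrix.of_apply, Matrix.of_apply, Matrix.of_apply]
    refine Fin.cases ?_ (fun j => ?_) j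
    · simp only [hv, hN', Fin.cons_zero]
      field_simp
    · simp only [hv, hN', Fin.cons_succ, one_mul]
  have hb : ∀ l j, ‖(Matrix.of N') l j‖ ≤ C := by
    intro l j
    rw [Matrix.of_apply]
    refine Fin.cases ?_ (fun j => ?_) j
    · simp only [hN', Fin.cons_zero]
      rw [norm_div, Complex.norm_real, Real.norm_eq_abs, abs_of_pos hδ, div_le_iff₀ hδ]
      have := h0 l
      nlinarith
    · simp only [hN', Fin.cons_succ]
      exact h1 l j
  have h2 : ‖(Matrix.of N').det‖ ≤ (k + 1).factorial * C ^ (k + 1) := by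
    have h3 := Matrix.det_le (A := Matrix.of N') (abv := IsAbsoluteValue.toAbsoluteValue
      (norm : ℂ → ℝ)) (x := C) fun i j => hb i j
    rw [Fintype.card_fin, nsmul_eq_mul] at h3
    exact h3
  rw [e, Matrix.det_mul_row, Fin.prod_univ_succ]
  simp only [hv, Fin.cons_zero, Fin.cons_succ, Finset.prod_const_one, mul_one]
  rw [norm_mul, Complex.norm_real, Real.norm_eq_abs, abs_of_pos hδ]
  exact mul_le_mul_of_nonneg_left h2 hδ.le

/-- a determinant whose first column is close to the first unit vector -/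
theorem det_col (A : Fin d → Fin d → ℂ) {ε : ℝ} (hε : 0 < ε) :
    ∃ δ1 : ℝ, 0 < δ1 ∧ ∀ B : ℝ, 0 ≤ B → ∃ δ2 : ℝ, 0 < δ2 ∧
      ∀ M : Fin (d + 1) → Fin (d + 1) → ℂ, ‖M 0 0 - 1‖ < δ2 →
      (∀ j : Fin d, ‖M 0 j.succ‖ ≤ B) → (∀ l : Fin d, ‖M l.succ 0‖ < δ2) →
      (∀ l j : Fin d, ‖M l.succ j.succ - A l j‖ < δ1) →
      ‖(Matrix.of M).det - (Matrix.of A).det‖ ≤ ε := by
  classical
  obtain ⟨δ0, hδ0, hdet⟩ := det_near A (show (0 : ℝ) < ε / 4 by linarith)
  refine ⟨min δ0 1, lt_min hδ0 one_pos, fun B hB => ?_⟩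
  set C0 : ℝ := ‖(Matrix.of A).det‖ with hC0
  have hC00 : 0 ≤ C0 := norm_nonneg _
  set C : ℝ := 1 + 1 + ∑ l, ∑ j, ‖A l j‖ with hC
  have hsum0 : 0 ≤ ∑ l, ∑ j, ‖A l j‖ :=
    Finset.sum_nonneg fun l _ => Finset.sum_nonneg fun j _ => norm_nonneg _
  have hC1 : 1 ≤ C := by linarith
  have hAC : ∀ l j, ‖A l j‖ + 1 ≤ C := by
    intro l j
    have h1 : ‖A l j‖ ≤ ∑ j, ‖A l j‖ :=
      Finset.single_le_sum (f := fun j => ‖A l j‖) (fun j _ => norm_nonneg _) (Finset.mem_univ j)
    have h2 : ∑ j, ‖A l j‖ ≤ ∑ l, ∑ j, ‖A l j‖ :=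
      Finset.single_le_sum (f := fun l => ∑ j, ‖A l j‖)
        (fun l _ => Finset.sum_nonneg fun j _ => norm_nonneg _) (Finset.mem_univ l)
    linarith
  set Q : ℝ := d.factorial * C ^ d with hQ
  have hQ0 : 0 ≤ Q := by positivity
  set R : ℝ := C0 + ε / 4 + d * (B * Q) + 1 with hR
  have hR0 : 0 < R := by positivity
  refine ⟨ε / 2 / R, by positivity, fun M h00 h0 hl hlj => ?_⟩
  set δ2 : ℝ := ε / 2 / R with hδ2
  have hδ20 : 0 < δ2 := by positivity
  set D0 : ℂ := (Matrix.of fun l k : Fin d => M l.succ ((0 : Fin (d + 1)).succAbove k)).det with hD0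
  have hD0c : ‖D0 - (Matrix.of A).det‖ ≤ ε / 4 := by
    refine (hdet _ fun l k => ?_).le
    exact (hlj l k).trans_le (min_le_left _ _)
  have hD0b : ‖D0‖ ≤ C0 + ε / 4 := by
    have h1 : D0 = (D0 - (Matrix.of A).det) + (Matrix.of A).det := by ring
    rw [h1]
    refine (norm_add_le _ _).trans ?_
    linarith
  have hm : ∀ j : Fin d, ‖(Matrix.of fun l k : Fin d => M l.succ (j.succ.succAbove k)).det‖ ≤
      δ2 * Q := by
    intro j
    have hd : 0 < d := j.pos
    obtain ⟨k, rfl⟩ : ∃ k, d = k + 1 := ⟨d - 1, by omega⟩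
    refine det_small hC1 hδ20 _ (fun l => ?_) fun l i => ?_
    · rw [Fin.succAbove_ne_zero_zero (Fin.succ_ne_zero j)]
      exact (hl l).le
    · have h1 : j.succ.succAbove i.succ = (j.succAbove i).succ := Fin.succ_succAbove_succ j i
      rw [h1]
      have h2 := hlj l (j.succAbove i)
      have h3 : M l.succ (j.succAbove i).succ = (M l.succ (j.succAbove i).succ -
        A l (j.succAbove i)) + A l (j.succAbove i) := by ring
      rw [h3]
      refine (norm_add_le _ _).trans ?_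
      have h4 := h2.trans_le (min_le_right _ _)
      have h5 := hAC l (j.succAbove i)
      linarith
  have hexp : (Matrix.of M).det = M 0 0 * D0 +
      ∑ j : Fin d, (-1) ^ (j.succ : ℕ) * M 0 j.succ *
        (Matrix.of fun l k : Fin d => M l.succ (j.succ.succAbove k)).det := by
    rw [Matrix.det_succ_row_zero, Fin.sum_univ_succ]
    congr 1
    simp only [Fin.val_zero, pow_zero, one_mul]
    rfl
  have e1 : (Matrix.of M).det - (Matrix.of A).det = (M 0 0 - 1) * D0 + (D0 - (Matrix.of A).det) +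
      ∑ j : Fin d, (-1) ^ (j.succ : ℕ) * M 0 j.succ *
        (Matrix.of fun l k : Fin d => M l.succ (j.succ.succAbove k)).det := by
    rw [hexp]
    ring
  have h1 : ‖(M 0 0 - 1) * D0‖ ≤ δ2 * (C0 + ε / 4) := by
    rw [norm_mul]
    exact mul_le_mul h00.le hD0b (norm_nonneg _) hδ20.le
  have h2 : ‖∑ j : Fin d, (-1) ^ (j.succ : ℕ) * M 0 j.succ *
      (Matrix.of fun l k : Fin d => M l.succ (j.succ.succAbove k)).det‖ ≤ δ2 * (d * (B * Q)) := by
    refine (norm_sum_le _ _).trans ?_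
    have h3 : ∀ j : Fin d, ‖(-1) ^ (j.succ : ℕ) * M 0 j.succ *
        (Matrix.of fun l k : Fin d => M l.succ (j.succ.succAbove k)).det‖ ≤ B * (δ2 * Q) := by
      intro j
      rw [norm_mul, norm_mul, norm_pow, norm_neg, norm_one, one_pow, one_mul]
      exact mul_le_mul (h0 j) (hm j) (norm_nonneg _) hB
    refine (Finset.sum_le_sum fun j _ => h3 j).trans ?_
    rw [Finset.sum_const, Finset.card_univ, Fintype.card_fin, nsmul_eq_mul]
    exact le_of_eq (by ring)
  rw [e1]
  refine (norm_add₃_le).trans ?_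
  have h5 : δ2 * R = ε / 2 := by
    rw [hδ2]
    field_simp
  have h6 : δ2 * (C0 + ε / 4) + δ2 * (d * (B * Q)) ≤ δ2 * R := by
    rw [← mul_add]
    refine mul_le_mul_of_nonneg_left ?_ hδ20.le
    linarith
  linarith

/-- The regulator integral for functions the first of which is large. -/
theorem pairing_row (A : Matrix (Fin d) (Fin d) ℝ) {ε : ℝ} (hε : 0 < ε) :
    ∃ δ1 : ℝ, 0 < δ1 ∧ ∀ B : ℝ, 0 ≤ B → ∃ δ2 : ℝ, 0 < δ2 ∧
      ∀ (g : Fin (d + 1) → (Fin d → ℝ) → ℂ) (s : ℝ), s ≠ 0 → (∀ l, Good (g l)) →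
      (∀ θ, |Real.log ‖g 0 θ‖ / s - 1| < δ2) →
      (∀ j θ, ‖lw (g 0) j θ‖ ≤ B) →
      (∀ (l : Fin d) θ, |Real.log ‖g l.succ θ‖ / s| < δ2) →
      (∀ (l j : Fin d) θ, ‖lw (g l.succ) j θ - 2 * Real.pi * Complex.I * A l j‖ < δ1) →
      |pairing g / s - (2 * Real.pi) ^ d * A.det| ≤ ε := by
  obtain ⟨δ, hδ, hdet⟩ := det_col (fun l j => 2 * Real.pi * Complex.I * A l j) hε
  refine ⟨δ / 2, by linarith, fun B hB => ?_⟩
  obtain ⟨δ2, hδ2, hdet⟩ := hdet (2 * B) (by positivity)
  refine ⟨δ2, hδ2, fun g s hs hg h0 h0' h1 h2 => ?_⟩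
  set N : (Fin (d + 1) → ℝ) → Fin (d + 1) → Fin (d + 1) → ℂ := fun y l =>
    Fin.cons (((Real.log ‖g l (tl d y)‖ / s : ℝ)) : ℂ) fun j => grow (g l) y j.succ with hN
  have hsc : (s : ℂ) ≠ 0 := by exact_mod_cast hs
  have hdet0 : (Matrix.of fun l j : Fin d => 2 * Real.pi * Complex.I * (A l j : ℂ)).det =
      (2 * Real.pi * Complex.I) ^ d * (A.det : ℂ) := by
    have e : (Matrix.of fun l j : Fin d => 2 * Real.pi * Complex.I * (A l j : ℂ)) =
        (2 * Real.pi * Complex.I : ℂ) • (A.map (fun x : ℝ => (x : ℂ))) := by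
      ext l j
      simp
    rw [e, Matrix.det_smul, Fintype.card_fin]
    congr 1
    exact (RingHom.map_det Complex.ofRealHom A).symm
  have hmain0 : ((-Complex.I) ^ d *
      (Matrix.of fun l j : Fin d => 2 * Real.pi * Complex.I * (A l j : ℂ)).det).re =
      (2 * Real.pi) ^ d * A.det := by
    rw [hdet0, ← mul_assoc, ← mul_pow]
    have e : -Complex.I * (2 * Real.pi * Complex.I) = ((2 * Real.pi : ℝ) : ℂ) := by
      push_cast
      linear_combination (-(2 * (Real.pi : ℂ))) * Complex.I_mul_I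
    rw [e, ← Complex.ofReal_pow, ← Complex.ofReal_mul, Complex.ofReal_re]
  have hint : ∀ y, integrand g y = s * ((-Complex.I) ^ d * (Matrix.of (N y)).det).re := by
    intro y
    unfold integrand
    have e : (Matrix.of fun l => grow (g l) y) = Matrix.of fun l j =>
        (Fin.cons (s : ℂ) fun _ => 1 : Fin (d + 1) → ℂ) j * (Matrix.of (N y)) l j := by
      ext l j
      rw [Matrix.of_apply, Matrix.of_apply, Matrix.of_apply]
      refine Fin.cases ?_ (fun j => ?_) j
      · simp only [hN, Fin.cons_zero, grow_zero]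
        push_cast
        field_simp
      · simp only [hN, Fin.cons_succ, one_mul]
    rw [e, Matrix.det_mul_row, Fin.prod_univ_succ]
    simp only [Fin.cons_zero, Fin.cons_succ, Finset.prod_const_one, mul_one]
    have e2 : (-Complex.I) ^ d * (s * (Matrix.of (N y)).det) =
        s * ((-Complex.I) ^ d * (Matrix.of (N y)).det) := by ring
    rw [e2, Complex.re_ofReal_mul]
  have hcont : Continuous fun y => integrand g y / s := (continuous_integrand hg).div_const s
  have hp : pairing g / s = ∫ y in Icc (0 : Fin (d + 1) → ℝ) 1, integrand g y / s := by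
    unfold pairing
    rw [integral_div]
  rw [hp, ← hmain0]
  refine abs_integral_sub_le hcont fun y hy => ?_
  rw [hint, mul_div_cancel_left₀ _ hs, ← Complex.sub_re, ← mul_sub]
  refine (Complex.abs_re_le_norm _).trans ?_
  rw [norm_mul, norm_pow, norm_neg, Complex.norm_I, one_pow, one_mul]
  have hy0 : |y 0| ≤ 1 := by
    rw [abs_of_nonneg (hy.1 0)]
    exact hy.2 0
  have hgen : ∀ q : ℂ, ‖((y 0 * q.re : ℝ) : ℂ) + Complex.I * ((q.im : ℝ) : ℂ)‖ ≤ 2 * ‖q‖ := by
    intro q
    refine (norm_add_le _ _).trans ?_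
    rw [norm_mul, Complex.norm_I, one_mul, Complex.norm_real, Complex.norm_real,
      Real.norm_eq_abs, Real.norm_eq_abs, abs_mul]
    have h4 := Complex.abs_re_le_norm q
    have h5 := Complex.abs_im_le_norm q
    have h6 : |y 0| * |q.re| ≤ 1 * ‖q‖ := mul_le_mul hy0 h4 (abs_nonneg _) zero_le_one
    linarith
  refine hdet (N y) ?_ (fun j => ?_) (fun l => ?_) fun l j => ?_
  · simp only [hN, Fin.cons_zero]
    rw [← Complex.ofReal_one, ← Complex.ofReal_sub, Complex.norm_real, Real.norm_eq_abs]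
    exact h0 _
  · simp only [hN, Fin.cons_succ]
    refine (hgen (lw (g 0) j (tl d y))).trans ?_
    have := h0' j (tl d y)
    linarith
  · simp only [hN, Fin.cons_zero]
    rw [Complex.norm_real, Real.norm_eq_abs]
    exact h1 l _
  · simp only [hN, Fin.cons_succ, grow_succ]
    set w : ℂ := lw (g l.succ) j (tl d y) with hw
    set q : ℂ := w - 2 * Real.pi * Complex.I * A l j with hq
    have hq2 : ‖q‖ < δ / 2 := h2 l j _
    have hwq : w = q + 2 * Real.pi * Complex.I * A l j := by rw [hq]; ring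
    have hre : w.re = q.re := by
      rw [hwq]
      simp
    have him : w.im = q.im + 2 * Real.pi * A l j := by
      rw [hwq]
      simp
    rw [hre, him]
    have e : (((y 0 * q.re : ℝ)) : ℂ) + Complex.I * ((q.im + 2 * Real.pi * A l j : ℝ) : ℂ) -
        2 * Real.pi * Complex.I * A l j = ((y 0 * q.re : ℝ) : ℂ) +
          Complex.I * ((q.im : ℝ) : ℂ) := by
      push_cast
      ring
    rw [e]
    exact (hgen q).trans_lt (by linarith)

end Pool.Agent.K7.H1.AR
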