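import Pool.Agent.K7.H1.AR.Pair
import Pool.Agent.TH577.UA.Tor
import Pool.Agent.TH690.SF.Branch
set_option autoImplicit false

/-!
Bounds of periodic functions, and the large root of a quadratic equation with a parameter.
-/

namespace Pool.Agent.K7.H1.AR

open Pool.Agent.TH826.MK

open Pool.Agent.TH690.SF (he he_eq se good_he_comp norm_lw_he_comp abs_log_norm_he)

variable {n : ℕ}

/-- A periodic continuous function is bounded. -/
theorem per_bound {f : (Fin n → ℝ) → ℝ} (hc : Continuous f)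
    (hp : ∀ θ i, f (θ + Pi.single i 1) = f θ) : ∃ B : ℝ, 0 ≤ B ∧ ∀ θ, |f θ| ≤ B := by
  classical
  obtain ⟨B, hB⟩ := (isCompact_Icc (a := (0 : Fin n → ℝ)) (b := 1)).exists_bound_of_continuousOn
    hc.continuousOn
  let P : AddSubgroup (Fin n → ℝ) :=
    { carrier := {v | ∀ θ, f (θ + v) = f θ}
      zero_mem' := fun θ => by rw [add_zero]
      add_mem' := fun {a b} ha hb θ => by
        have h1 : θ + (a + b) = (θ + a) + b := (add_assoc _ _ _).symm
        rw [h1]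
        exact (hb (θ + a)).trans (ha θ)
      neg_mem' := fun {a} ha θ => by
        have := ha (θ + -a)
        rw [neg_add_cancel_right] at this
        exact this.symm }
  have hz : ∀ z : Fin n → ℤ, (fun i => (z i : ℝ)) ∈ P := by
    intro z
    have e : (fun i => (z i : ℝ)) = ∑ i, z i • (Pi.single i 1 : Fin n → ℝ) := by
      funext j
      rw [Finset.sum_apply]
      rw [Finset.sum_eq_single j]
      · simp
      · intro i _ hi
        simp [Pi.single_eq_of_ne hi.symm]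
      · intro h
        exact absurd (Finset.mem_univ j) h
    rw [e]
    exact P.sum_mem fun i _ => P.zsmul_mem (fun θ => hp θ i) _
  have hfr : ∀ θ : Fin n → ℝ, f θ = f fun i => Int.fract (θ i) := by
    intro θ
    have h1 := hz (fun i => ⌊θ i⌋) (fun i => Int.fract (θ i))
    have h2 : ((fun i => Int.fract (θ i)) + fun i => ((⌊θ i⌋ : ℤ) : ℝ)) = θ := by
      funext i
      exact Int.fract_add_floor (θ i)
    rw [h2] at h1
    exact h1
  refine ⟨max B 0, le_max_right _ _, fun θ => ?_⟩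
  rw [hfr]
  refine (hB (fun i => Int.fract (θ i)) ⟨fun i => Int.fract_nonneg _, fun i => ?_⟩).trans
    (le_max_left _ _)
  exact (Int.fract_lt_one _).le

theorem continuous_lw {g : (Fin n → ℝ) → ℂ} (hg : Good g) (j : Fin n) : Continuous (lw g j) :=
  continuous_iff_continuousAt.2 fun θ => (hasFDerivAt_lw hg.smooth hg.ne_zero j θ).continuousAt

/-- bounds for the logarithm and the logarithmic derivatives -/
theorem good_bound {g : (Fin n → ℝ) → ℂ} (hg : Good g) (hp : Per g) : ∃ B : ℝ, 0 ≤ B ∧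
    (∀ θ, |Real.log ‖g θ‖| ≤ B) ∧ ∀ j θ, ‖lw g j θ‖ ≤ B := by
  have hc : Continuous fun θ => Real.log ‖g θ‖ :=
    (hg.smooth.continuous.norm).log fun θ => norm_ne_zero_iff.2 (hg.ne_zero θ)
  obtain ⟨B1, hB1, h1⟩ := per_bound hc (fun θ i => by rw [hp θ i])
  choose B2 hB2 h2 using fun j : Fin n => per_bound (f := fun θ => ‖lw g j θ‖)
    (continuous_lw hg j).norm (fun θ i => by rw [hp.lw j i θ])
  refine ⟨B1 + ∑ j, B2 j, add_nonneg hB1 (Finset.sum_nonneg fun j _ => hB2 j), fun θ => ?_,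
    fun j θ => ?_⟩
  · have := h1 θ
    have h3 : 0 ≤ ∑ j, B2 j := Finset.sum_nonneg fun j _ => hB2 j
    linarith
  · have h3 := h2 j θ
    rw [abs_of_nonneg (norm_nonneg _)] at h3
    have h4 : B2 j ≤ ∑ j, B2 j :=
      Finset.single_le_sum (fun j _ => hB2 j) (Finset.mem_univ j)
    linarith

theorem per_fderiv {f : (Fin n → ℝ) → ℂ} (hp : Per f) (i : Fin n) (θ : Fin n → ℝ) :
    fderiv ℝ f (θ + Pi.single i 1) = fderiv ℝ f θ := by
  have h : (fun θ => f (θ + Pi.single i 1)) = f := funext fun θ => hp θ i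
  have h2 := fderiv_comp_add_right (𝕜 := ℝ) (f := f) (x := θ) (Pi.single i 1)
  rw [h] at h2
  exact h2.symm

theorem smooth_bound {f : (Fin n → ℝ) → ℂ} (hf : ContDiff ℝ 2 f) (hp : Per f) :
    ∃ B : ℝ, 0 ≤ B ∧ (∀ θ, ‖f θ‖ ≤ B) ∧ ∀ j θ, ‖fderiv ℝ f θ (Pi.single j 1)‖ ≤ B := by
  obtain ⟨B1, hB1, h1⟩ := per_bound (f := fun θ => ‖f θ‖) hf.continuous.norm
    (fun θ i => by rw [hp θ i])
  have hd : Continuous (fderiv ℝ f) := hf.continuous_fderiv (by norm_num)
  choose B2 hB2 h2 using fun j : Fin n =>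
    per_bound (f := fun θ => ‖fderiv ℝ f θ (Pi.single j 1)‖)
      (hd.clm_apply continuous_const).norm (fun θ i => by rw [per_fderiv hp])
  refine ⟨B1 + ∑ j, B2 j, add_nonneg hB1 (Finset.sum_nonneg fun j _ => hB2 j), fun θ => ?_,
    fun j θ => ?_⟩
  · have := h1 θ
    rw [abs_of_nonneg (norm_nonneg _)] at this
    have h3 : 0 ≤ ∑ j, B2 j := Finset.sum_nonneg fun j _ => hB2 j
    linarith
  · have h3 := h2 j θ
    rw [abs_of_nonneg (norm_nonneg _)] at h3
    have h4 : B2 j ≤ ∑ j, B2 j :=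
      Finset.single_le_sum (fun j _ => hB2 j) (Finset.mem_univ j)
    linarith

theorem good_inv {g : (Fin n → ℝ) → ℂ} (hg : Good g) : Good fun θ => (g θ)⁻¹ :=
  ⟨hg.smooth.inv hg.ne_zero, fun θ => inv_ne_zero (hg.ne_zero θ)⟩

theorem lw_inv {g : (Fin n → ℝ) → ℂ} (hg : Good g) (j : Fin n) (θ : Fin n → ℝ) :
    lw (fun θ => (g θ)⁻¹) j θ = -lw g j θ := by
  have h1 := lw_mul (good_inv hg) hg j θ
  have e : (fun θ => (g θ)⁻¹ * g θ) = fun _ => (1 : ℂ) := by
    funext θ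
    exact inv_mul_cancel₀ (hg.ne_zero θ)
  rw [e, lw_const] at h1
  linear_combination -h1

/-- The large root of `z² - (λ F - S) z + 1/P` for large `λ`. -/
theorem exists_root_torus {F S P : (Fin n → ℝ) → ℂ} (hF : Good F) (pF : Per F)
    (hS : ContDiff ℝ 2 S) (pS : Per S) (hP : Good P) (pP : Per P) :
    ∃ B Λ : ℝ, 0 ≤ B ∧ 1 ≤ Λ ∧ ∀ lam : ℂ, Λ ≤ ‖lam‖ → ∃ z : (Fin n → ℝ) → ℂ,
      Good z ∧ Per z ∧ (∀ θ, z θ ^ 2 - (lam * F θ - S θ) * z θ + (P θ)⁻¹ = 0) ∧
      (∀ θ, 2 * z θ - (lam * F θ - S θ) ≠ 0) ∧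
      (∀ θ, |Real.log ‖z θ‖ - Real.log ‖lam‖| ≤ B) ∧ ∀ j θ, ‖lw z j θ‖ ≤ B := by
  obtain ⟨BF, hBF, hF1, hF2⟩ := good_bound hF pF
  obtain ⟨BF', hBF', hF1', hF2'⟩ := smooth_bound hF.smooth pF
  obtain ⟨BS, hBS, hS1, hS2⟩ := smooth_bound hS pS
  obtain ⟨BP, hBP, hP1, hP2⟩ := good_bound hP pP
  -- lower bound for `F`
  set b : ℝ := Real.exp (-BF) with hb
  have hb0 : 0 < b := Real.exp_pos _
  have hFb : ∀ θ, b ≤ ‖F θ‖ := by
    intro θ
    have h1 := (abs_le.1 (hF1 θ)).1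
    have h2 : 0 < ‖F θ‖ := norm_pos_iff.2 (hF.ne_zero θ)
    rw [hb, ← Real.le_log_iff_exp_le h2]
    exact h1
  set b' : ℝ := b / 2 with hb'
  have hb'0 : 0 < b' := by rw [hb']; linarith
  -- bounds for `G = F - S/λ`
  set BG : ℝ := |Real.log b'| + |Real.log (BF' + b)| + (BF' + BS) / b' with hBG
  have hBG0 : 0 ≤ BG := by positivity
  set p0 : ℝ := Real.exp BP with hp0
  have hp00 : 0 < p0 := Real.exp_pos _
  have hPb : ∀ θ, ‖(P θ)⁻¹‖ ≤ p0 := by
    intro θ
    have h1 := (abs_le.1 (hP1 θ)).1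
    have h2 : 0 < ‖P θ‖ := norm_pos_iff.2 (hP.ne_zero θ)
    rw [norm_inv, hp0, ← Real.log_le_iff_le_exp (inv_pos.2 h2), Real.log_inv]
    linarith
  set Λ : ℝ := 1 + BS / b' + 16 * p0 / b' ^ 2 with hΛ
  have hΛ1 : 1 ≤ Λ := by
    have h1 : 0 ≤ BS / b' := by positivity
    have h2 : 0 ≤ 16 * p0 / b' ^ 2 := by positivity
    rw [hΛ]
    linarith
  refine ⟨BG + 1 + (BP + 2 * BG), Λ, by positivity, hΛ1, fun lam hlam => ?_⟩
  have hl1 : 1 ≤ ‖lam‖ := hΛ1.trans hlam
  have hl0 : lam ≠ 0 := by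
    rw [← norm_pos_iff]
    linarith
  have hlp : 0 < ‖lam‖ := by linarith
  have hSl : ∀ θ, ‖S θ / lam‖ ≤ b' := by
    intro θ
    rw [norm_div, div_le_iff₀ hlp]
    have h1 := hS1 θ
    have h2 : BS / b' ≤ ‖lam‖ := by
      have h3 : 0 ≤ 16 * p0 / b' ^ 2 := by positivity
      linarith
    rw [div_le_iff₀ hb'0] at h2
    linarith
  set G : (Fin n → ℝ) → ℂ := fun θ => F θ - S θ / lam with hGdef
  have hGc : ContDiff ℝ 2 G := hF.smooth.sub (hS.div_const lam)
  have hGb : ∀ θ, b' ≤ ‖G θ‖ := by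
    intro θ
    have h1 := norm_sub_norm_le (F θ) (S θ / lam)
    have h2 := hFb θ
    have h3 := hSl θ
    have h4 : b = 2 * b' := by rw [hb']; ring
    linarith
  have hGu : ∀ θ, ‖G θ‖ ≤ BF' + b := by
    intro θ
    have h1 := norm_sub_le (F θ) (S θ / lam)
    have h2 := hF1' θ
    have h3 := hSl θ
    have h4 : b = 2 * b' := by rw [hb']; ring
    linarith
  have hG : Good G := ⟨hGc, fun θ h0 => by
    have h1 := hGb θ
    rw [h0, norm_zero] at h1
    linarith⟩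
  have pG : Per G := fun θ i => by
    simp only [hGdef]
    rw [pF θ i, pS θ i]
  have hGlog : ∀ θ, |Real.log ‖G θ‖| ≤ |Real.log b'| + |Real.log (BF' + b)| := by
    intro θ
    have h1 := Real.log_le_log hb'0 (hGb θ)
    have h2 := Real.log_le_log (hb'0.trans_le (hGb θ)) (hGu θ)
    rw [abs_le]
    have h3 := neg_abs_le (Real.log b')
    have h4 := le_abs_self (Real.log (BF' + b))
    have h5 := abs_nonneg (Real.log b')
    have h6 := abs_nonneg (Real.log (BF' + b))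
    constructor <;> linarith
  have hGlw : ∀ j θ, ‖lw G j θ‖ ≤ (BF' + BS) / b' := by
    intro j θ
    have hdF := ((hF.smooth.differentiable (by norm_num)) θ)
    have hdS := ((hS.differentiable (by norm_num)) θ)
    have h1 : fderiv ℝ G θ (Pi.single j 1) = fderiv ℝ F θ (Pi.single j 1) -
        fderiv ℝ S θ (Pi.single j 1) / lam := by
      have e : G = fun θ => F θ - lam⁻¹ * S θ := by
        funext θ
        simp only [hGdef, div_eq_inv_mul]
      rw [e, fderiv_fun_sub hdF (hdS.const_mul lam⁻¹), fderiv_const_mul hdS]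
      simp only [sub_apply, smul_apply, smul_eq_mul, div_eq_inv_mul]
    unfold lw
    rw [h1, norm_div]
    refine div_le_div₀ (by positivity) ?_ hb'0 (hGb θ)
    refine (norm_sub_le _ _).trans (add_le_add (hF2' j θ) ?_)
    rw [norm_div]
    exact (div_le_self (norm_nonneg _) hl1).trans (hS2 j θ)
  have hc1 : Good fun _ : Fin n → ℝ => lam := good_const hl0
  set φ : (Fin n → ℝ) → ℂ := fun θ => lam * G θ with hφdef
  have hφ : Good φ := hc1.mul hG
  have hφe : ∀ θ, φ θ = lam * F θ - S θ := by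
    intro θ
    simp only [hφdef, hGdef]
    rw [mul_sub, mul_div_cancel₀ _ hl0]
  have pφ : Per φ := fun θ i => by
    simp only [hφdef]
    rw [pG θ i]
  set κ : (Fin n → ℝ) → ℂ := fun θ => (P θ * (φ θ * φ θ))⁻¹ with hκdef
  have hPφ := hP.mul (hφ.mul hφ)
  have hκ : Good κ := good_inv hPφ
  have pκ : Per κ := fun θ i => by
    simp only [hκdef]
    rw [pP θ i, pφ θ i]
  have hlφ : ∀ j θ, lw φ j θ = lw G j θ := by
    intro j θ
    have h1 := lw_mul hc1 hG j θ
    rw [lw_const, zero_add] at h1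
    exact h1
  have hlκ : ∀ j θ, ‖lw κ j θ‖ ≤ BP + 2 * BG := by
    intro j θ
    have h1 : lw κ j θ = -(lw P j θ + (lw G j θ + lw G j θ)) := by
      rw [← hlφ, ← lw_mul hφ hφ, ← lw_mul hP (hφ.mul hφ)]
      exact lw_inv hPφ j θ
    rw [h1, norm_neg]
    refine (norm_add_le _ _).trans ?_
    have h2 := norm_add_le (lw G j θ) (lw G j θ)
    have h3 := hGlw j θ
    have h4 := hP2 j θ
    have h5 : (BF' + BS) / b' ≤ BG := by
      rw [hBG]
      have := abs_nonneg (Real.log b')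
      have := abs_nonneg (Real.log (BF' + b))
      linarith
    linarith
  have hκs : ∀ θ, ‖κ θ‖ ≤ 1 / 16 := by
    intro θ
    have h1 : ‖κ θ‖ = ‖(P θ)⁻¹‖ / (‖lam‖ * ‖G θ‖) ^ 2 := by
      simp only [hκdef, hφdef]
      rw [norm_inv, norm_mul, norm_mul, norm_mul, mul_inv, norm_inv, div_eq_mul_inv]
      ring
    have hpos : 0 < ‖lam‖ * b' := by positivity
    have h2 : (‖lam‖ * b') ^ 2 ≤ (‖lam‖ * ‖G θ‖) ^ 2 :=
      pow_le_pow_left₀ hpos.le (mul_le_mul_of_nonneg_left (hGb θ) hlp.le) 2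
    have h3 : 16 * p0 / b' ^ 2 ≤ ‖lam‖ := by
      have h4 : 0 ≤ BS / b' := by positivity
      linarith
    rw [div_le_iff₀ (by positivity)] at h3
    have h5 : 16 * p0 ≤ (‖lam‖ * b') ^ 2 := by
      rw [mul_pow]
      have h6 : ‖lam‖ * b' ^ 2 ≤ ‖lam‖ ^ 2 * b' ^ 2 := by
        refine mul_le_mul_of_nonneg_right ?_ (by positivity)
        nlinarith
      linarith
    rw [h1, div_le_iff₀ (lt_of_lt_of_le (by positivity) h2)]
    have h7 := hPb θ
    linarith
  have hhe := good_he_comp hκ hκs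
  refine ⟨fun θ => φ θ * he (κ θ), hφ.mul hhe, fun θ i => ?_, fun θ => ?_, fun θ h0 => ?_,
    fun θ => ?_, fun j θ => ?_⟩
  · show φ (θ + Pi.single i 1) * he (κ (θ + Pi.single i 1)) = φ θ * he (κ θ)
    rw [pφ θ i, pκ θ i]
  · have h1 := he_eq (hκs θ)
    rw [← hφe]
    have h2 : φ θ ^ 2 * κ θ = (P θ)⁻¹ := by
      simp only [hκdef]
      have h3 := hP.ne_zero θ
      have h4 := hφ.ne_zero θ
      field_simp
    show (φ θ * he (κ θ)) ^ 2 - φ θ * (φ θ * he (κ θ)) + (P θ)⁻¹ = 0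
    linear_combination φ θ ^ 2 * h1 - h2
  · rw [← hφe] at h0
    have h1 : 2 * (φ θ * he (κ θ)) - φ θ = φ θ * se (κ θ) := by
      unfold he
      ring
    have h0' : 2 * (φ θ * he (κ θ)) - φ θ = 0 := h0
    rw [h1] at h0'
    have h2 : se (κ θ) ≠ 0 := Complex.exp_ne_zero _
    exact mul_ne_zero (hφ.ne_zero θ) h2 h0'
  · have h1 := abs_log_norm_he (hκs θ)
    have h2 := hGlog θ
    show |Real.log ‖lam * G θ * he (κ θ)‖ - Real.log ‖lam‖| ≤ _
    rw [norm_mul, norm_mul, Real.log_mul (mul_ne_zero hlp.ne'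
      (norm_ne_zero_iff.2 (hG.ne_zero θ))) (norm_ne_zero_iff.2 (hhe.ne_zero θ)),
      Real.log_mul hlp.ne' (norm_ne_zero_iff.2 (hG.ne_zero θ))]
    have h3 : Real.log ‖lam‖ + Real.log ‖G θ‖ + Real.log ‖he (κ θ)‖ - Real.log ‖lam‖ =
        Real.log ‖G θ‖ + Real.log ‖he (κ θ)‖ := by ring
    rw [h3]
    refine (abs_add_le _ _).trans ?_
    have h4 : 0 ≤ (BF' + BS) / b' := by positivity
    linarith
  · have h1 := lw_mul hφ hhe j θ
    have h2 := norm_lw_he_comp hκ hκs j θ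
    have h3 : lw (fun θ => φ θ * he (κ θ)) j θ = lw G j θ + lw (fun θ => he (κ θ)) j θ := by
      rw [h1, hlφ]
    rw [h3]
    refine (norm_add_le _ _).trans ?_
    have h4 := hGlw j θ
    have h5 := hlκ j θ
    have h6 := hκs θ
    have h7 : 2 * ‖κ θ‖ * ‖lw κ j θ‖ ≤ 2 * (1 / 16) * (BP + 2 * BG) := by
      refine mul_le_mul (by linarith) h5 (norm_nonneg _) (by norm_num)
    have h8 : (BF' + BS) / b' ≤ BG := by
      rw [hBG]
      have := abs_nonneg (Real.log b')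
      have := abs_nonneg (Real.log (BF' + b))
      linarith
    have h9 : 0 ≤ BP + 2 * BG := by positivity
    linarith

end Pool.Agent.K7.H1.AR
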