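import Pool.Agent.K7.H1.AR.Ev
set_option autoImplicit false

/-!
The tori over the neighbourhoods of the vertices, and the regulators on them.
-/

namespace Pool.Agent.K7.H1.AR

open Pool.Agent.TH826.MK

open Pool.Agent.TH826.GA (cm lc lf ku coe_ku vtx)

open Pool.Agent.TH577.UA (hi kap kap_ne mu Distinct lead)

section mat

variable {K : Type*} [Field K] {d m : ℕ}

/-- the winding numbers of the coordinates -/
noncomputable def amat (s : ℕ) (c : Fin (m + 1) → Fin (d + 1) → K) (a : Fin (m + 1) → K)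
    (T p q : Fin (d + 1) → Fin (m + 1)) : Matrix (Fin (s + (d + 1))) (Fin (s + (d + 1))) ℝ :=
  Matrix.of (Fin.append (fun i j => if j = Fin.castAdd (d + 1) i then 1 else 0)
    fun l j => row s (mu c a T (p l)) j - row s (mu c a T (q l)) j)

theorem det_amat (s : ℕ) (c : Fin (m + 1) → Fin (d + 1) → K) (a : Fin (m + 1) → K)
    (T p q : Fin (d + 1) → Fin (m + 1)) : (amat s c a T p q).det = lead c a T p q := by
  have h : amat s c a T p q = (Matrix.fromBlocks (1 : Matrix (Fin s) (Fin s) ℝ) 0 0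
      (Matrix.of fun l j => (mu c a T (p l) j : ℝ) - mu c a T (q l) j)).submatrix
        finSumFinEquiv.symm finSumFinEquiv.symm := by
    ext l j
    unfold amat row
    rw [Matrix.of_apply, Matrix.submatrix_apply]
    refine Fin.addCases (fun i => ?_) (fun i => ?_) l
    · rw [Fin.append_left, finSumFinEquiv_symm_apply_castAdd]
      refine Fin.addCases (fun k => ?_) (fun k => ?_) j
      · rw [finSumFinEquiv_symm_apply_castAdd, Matrix.fromBlocks_apply₁₁, Matrix.one_apply]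
        refine if_congr ?_ rfl rfl
        rw [Fin.castAdd_inj, eq_comm]
      · rw [finSumFinEquiv_symm_apply_natAdd, Matrix.fromBlocks_apply₁₂, Matrix.zero_apply]
        refine if_neg fun h => ?_
        have := congrArg Fin.val h
        simp at this
        omega
    · rw [Fin.append_right, finSumFinEquiv_symm_apply_natAdd]
      refine Fin.addCases (fun k => ?_) (fun k => ?_) j
      · rw [finSumFinEquiv_symm_apply_castAdd, Matrix.fromBlocks_apply₂₁, Fin.append_left,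
          Fin.append_left, sub_zero, Matrix.zero_apply]
      · rw [finSumFinEquiv_symm_apply_natAdd, Matrix.fromBlocks_apply₂₂, Fin.append_right,
          Fin.append_right, Matrix.of_apply]
  rw [h, Matrix.det_submatrix_equiv_self, Matrix.det_fromBlocks_zero₂₁, Matrix.det_one, one_mul]
  rfl

end mat

section main

variable {K : Type*} [Field K] {d m s B : ℕ} {σ : K →+* ℂ} {F : Fib K d m s B}

/-- the values of the entries other than `z` -/
noncomputable def fent (σ : K →+* ℂ) (F : Fib K d m s B) (T : Fin (d + 1) → Fin (m + 1))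
    (x : Fin (d + 1) → ℂ) (y : Fin s → ℂ) : Fin (s + (d + 1)) → ℂ :=
  Fin.append y fun k => σ (kap F.c T k) * (lc σ F.c F.a x (T k) / lc σ F.c F.a x (hi F.c T k))

theorem IsPt.ev_ent {lam : K} {x : Fin (d + 1) → ℂ} {y : Fin s → ℂ} {z t : ℂ}
    (h : IsPt F σ lam x y z t) {T : Fin (d + 1) → Fin (m + 1)} (hT : (cm F.c T).det ≠ 0)
    (l : Fin (s + (d + 1))) : h.ev (F.ent lam T l.succ : F.FRing lam) = fent σ F T x y l := by
  show h.ev ((Fin.append (F.uy lam) (F.ux lam T) l : (F.FRing lam)ˣ) : F.FRing lam) = _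
  unfold fent
  refine Fin.addCases (fun i => ?_) (fun i => ?_) l
  · rw [Fin.append_left, Fin.append_left, h.ev_uy]
  · rw [Fin.append_right, Fin.append_right]
    unfold Fib.ux
    rw [Units.val_mul, map_mul]
    congr 1
    · have e : ((Units.map (F.cst lam : K →* F.FRing lam) (ku (kap F.c T i)) : (F.FRing lam)ˣ) :
          F.FRing lam) = F.cst lam (kap F.c T i) := by
        show F.cst lam (ku (kap F.c T i) : K) = _
        rw [coe_ku (kap_ne hT i)]
      rw [e, h.ev_cst]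
    · have h0 : lc σ F.c F.a x (hi F.c T i) ≠ 0 := by
        rw [← h.ev_uL]
        exact ((F.uL lam _).isUnit.map h.ev).ne_zero
      rw [eq_div_iff h0, ← h.ev_uL, ← map_mul, ← Units.val_mul, div_mul_cancel, h.ev_uL]

theorem isPt_of {lam : K} {x : Fin (d + 1) → ℂ} {y : Fin s → ℂ} {z : ℂ}
    (hx : F.Fv σ lam x ≠ 0) (hy : ∀ i, y i ≠ 0) (hz0 : z ≠ 0)
    (hφ : ∀ k, F.Sv k y + (F.Pv k y)⁻¹ ≠ 0)
    (hz : z ^ 2 - (F.Fv σ lam x / (∏ k : Fin B, (F.Sv k.succ y + (F.Pv k.succ y)⁻¹)) -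
      F.Sv 0 y) * z + (F.Pv 0 y)⁻¹ = 0)
    (hd : 2 * z - (F.Fv σ lam x / (∏ k : Fin B, (F.Sv k.succ y + (F.Pv k.succ y)⁻¹)) -
      F.Sv 0 y) ≠ 0) :
    ∃ h : IsPt F σ lam x y z (z * ((∏ i, y i) * F.Fv σ lam x))⁻¹,
      h.ev (F.mkF lam (MvPolynomial.pderiv (Sum.inr (Sum.inr false)) (F.eqn lam))) ≠ 0 := by
  have hP : ∀ k, F.Pv k y ≠ 0 := fun k => by
    unfold Fib.Pv
    exact Finset.prod_ne_zero_iff.2 fun i _ => pow_ne_zero _ (hy i)
  set W : ℂ := ∏ k : Fin B, (F.Sv k.succ y + (F.Pv k.succ y)⁻¹) with hW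
  have hW0 : W ≠ 0 := Finset.prod_ne_zero_iff.2 fun k _ => hφ _
  set P' : ℂ := ∏ k : Fin B, F.Pv k.succ y with hP'
  have hP'0 : P' ≠ 0 := Finset.prod_ne_zero_iff.2 fun k _ => hP _
  have hQ : ∏ k : Fin B, (F.Sv k.succ y * F.Pv k.succ y + 1) = W * P' := by
    rw [hW, hP', ← Finset.prod_mul_distrib]
    refine Finset.prod_congr rfl fun k _ => ?_
    rw [add_mul, inv_mul_cancel₀ (hP _)]
  have hP0 := hP 0
  have h : IsPt F σ lam x y z (z * ((∏ i, y i) * F.Fv σ lam x))⁻¹ := by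
    constructor
    · exact inv_mul_cancel₀ (mul_ne_zero hz0 (mul_ne_zero
        (Finset.prod_ne_zero_iff.2 fun i _ => hy i) hx))
    · rw [hQ, ← hP']
      have e : F.Pv 0 y * (W * P') * z ^ 2 + F.Pv 0 y * (F.Sv 0 y * (W * P') -
          F.Fv σ lam x * P') * z + W * P' = F.Pv 0 y * (W * P') *
            (z ^ 2 - (F.Fv σ lam x / W - F.Sv 0 y) * z + (F.Pv 0 y)⁻¹) := by
        field_simp
        ring
      rw [e, hz, mul_zero]
  refine ⟨h, ?_⟩
  rw [h.ev_pderiv, hQ, ← hP']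
  have e : 2 * (F.Pv 0 y * (W * P')) * z + F.Pv 0 y * (F.Sv 0 y * (W * P') -
      F.Fv σ lam x * P') = F.Pv 0 y * (W * P') *
        (2 * z - (F.Fv σ lam x / W - F.Sv 0 y)) := by
    field_simp
    ring
  rw [e]
  exact mul_ne_zero (mul_ne_zero hP0 (mul_ne_zero hW0 hP'0)) hd

theorem good_div {n : ℕ} {f g : (Fin n → ℝ) → ℂ} (hf : Good f) (hg : Good g) :
    Good fun θ => f θ / g θ := by
  simp only [div_eq_mul_inv]
  exact hf.mul (good_inv hg)

theorem lw_div {n : ℕ} {f g : (Fin n → ℝ) → ℂ} (hf : Good f) (hg : Good g) (j : Fin n)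
    (θ : Fin n → ℝ) : lw (fun θ => f θ / g θ) j θ = lw f j θ - lw g j θ := by
  simp only [div_eq_mul_inv]
  rw [lw_mul hf (good_inv hg), lw_inv hg, sub_eq_add_neg]

theorem Base.good_L {T : Fin (d + 1) → Fin (m + 1)} {ε : ℝ}
    {x : (Fin (s + (d + 1)) → ℝ) → Fin (d + 1) → ℂ} {y : (Fin (s + (d + 1)) → ℝ) → Fin s → ℂ}
    (H : Base σ F T ε x y) (e : Fin (m + 1)) : Good fun θ => lc σ F.c F.a (x θ) e := by
  refine ⟨?_, H.hL e⟩
  unfold lc
  exact (ContDiff.sum fun j _ => contDiff_const.mul (H.hx j)).sub contDiff_const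

theorem Base.good_fent {T : Fin (d + 1) → Fin (m + 1)} {ε : ℝ}
    {x : (Fin (s + (d + 1)) → ℝ) → Fin (d + 1) → ℂ} {y : (Fin (s + (d + 1)) → ℝ) → Fin s → ℂ}
    (H : Base σ F T ε x y) {T' : Fin (d + 1) → Fin (m + 1)} (hT' : (cm F.c T').det ≠ 0)
    (l : Fin (s + (d + 1))) : Good fun θ => fent σ F T' (x θ) (y θ) l := by
  unfold fent
  refine Fin.addCases (fun i => ?_) (fun i => ?_) l
  · simp only [Fin.append_left]
    exact H.hy i
  · simp only [Fin.append_right]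
    exact (good_const ((map_ne_zero σ).2 (kap_ne hT' i))).mul
      (good_div (H.good_L _) (H.good_L _))

theorem Base.lw_fent {T : Fin (d + 1) → Fin (m + 1)} {ε : ℝ} (hε : 0 ≤ ε)
    {x : (Fin (s + (d + 1)) → ℝ) → Fin (d + 1) → ℂ} {y : (Fin (s + (d + 1)) → ℝ) → Fin s → ℂ}
    (H : Base σ F T ε x y) {T' : Fin (d + 1) → Fin (m + 1)} (hT' : (cm F.c T').det ≠ 0)
    (l j : Fin (s + (d + 1))) (θ : Fin (s + (d + 1)) → ℝ) :
    ‖lw (fun θ => fent σ F T' (x θ) (y θ) l) j θ -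
      2 * Real.pi * Complex.I * amat s F.c F.a T T' (hi F.c T') l j‖ ≤ 2 * ε := by
  unfold fent amat
  rw [Matrix.of_apply]
  refine Fin.addCases (fun i => ?_) (fun i => ?_) l
  · simp only [Fin.append_left]
    rw [H.ly i j θ, sub_self, norm_zero]
    linarith
  · simp only [Fin.append_right]
    rw [lw_mul (good_const ((map_ne_zero σ).2 (kap_ne hT' i)))
      (good_div (H.good_L _) (H.good_L _)), lw_const, zero_add, lw_div (H.good_L _) (H.good_L _)]
    have h1 := H.lL (T' i) j θ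
    have h2 := H.lL (hi F.c T' i) j θ
    have e : lw (fun θ => lc σ F.c F.a (x θ) (T' i)) j θ -
        lw (fun θ => lc σ F.c F.a (x θ) (hi F.c T' i)) j θ - 2 * Real.pi * Complex.I *
          ((row s (mu F.c F.a T (T' i)) j - row s (mu F.c F.a T (hi F.c T' i)) j : ℝ) : ℂ) =
        (lw (fun θ => lc σ F.c F.a (x θ) (T' i)) j θ -
          2 * Real.pi * Complex.I * row s (mu F.c F.a T (T' i)) j) -
        (lw (fun θ => lc σ F.c F.a (x θ) (hi F.c T' i)) j θ -
          2 * Real.pi * Complex.I * row s (mu F.c F.a T (hi F.c T' i)) j) := by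
      push_cast
      ring
    rw [e]
    refine (norm_sub_le _ _).trans ?_
    linarith

theorem exists_torus (σ : K →+* ℂ) (F : Fib K d m s B) {T : Fin (d + 1) → Fin (m + 1)}
    (hT : (cm F.c T).det ≠ 0) (hD : Distinct F.c F.a)
    (hg : MvPolynomial.eval (vtx F.c F.a T) F.g ≠ 0) {I : Type*} [Fintype I] [Nonempty I]
    (T' : I → Fin (d + 1) → Fin (m + 1)) (hT' : ∀ i, (cm F.c (T' i)).det ≠ 0) {ε : ℝ}
    (hε : 0 < ε) :
    ∃ Λ : ℝ, 1 < Λ ∧ ∀ lam : K, Λ ≤ ‖σ lam‖ → ∃ Γ : Torus (F.FRing lam) (s + (d + 1)),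
      F.Over lam σ Γ ∧
      ∀ i, |Γ.reg (symb (F.ent lam (T' i))) / Real.log ‖σ lam‖ -
        (2 * Real.pi) ^ (s + (d + 1)) * lead F.c F.a T (T' i) (hi F.c (T' i))| ≤ ε := by
  classical
  choose δ1 hδ1 hpair using fun i : I =>
    pairing_row (amat s F.c F.a T (T' i) (hi F.c (T' i))) hε
  obtain ⟨i0, -, hi0⟩ := Finset.exists_min_image Finset.univ δ1
    ⟨Classical.arbitrary I, Finset.mem_univ _⟩
  have hδ0 : 0 < δ1 i0 / 3 := by
    have := hδ1 i0
    linarith
  obtain ⟨x, y, H⟩ := exists_base σ F hT hD hg hδ0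
  -- the value of the product of the blocks
  have hyc : ∀ i, ContDiff ℝ 2 fun θ => y θ i := fun i => (H.hy i).smooth
  have hPg : ∀ k, Good fun θ => F.Pv k (y θ) := fun k => by
    unfold Fib.Pv
    exact good_prod _ fun i => TH577.UA.good_pow (H.hy i) _
  have hSc : ∀ k, ContDiff ℝ 2 fun θ => F.Sv k (y θ) := fun k => by
    unfold Fib.Sv
    exact ContDiff.sum fun i _ => hyc i
  have hW : ∀ k : Fin B, Good fun θ => F.Sv k.succ (y θ) + (F.Pv k.succ (y θ))⁻¹ := fun k =>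
    ⟨(hSc _).add (good_inv (hPg _)).smooth, fun θ => H.blk _ θ⟩
  set W : (Fin (s + (d + 1)) → ℝ) → ℂ :=
    fun θ => ∏ k : Fin B, (F.Sv k.succ (y θ) + (F.Pv k.succ (y θ))⁻¹) with hWdef
  have hWg : Good W := good_prod Finset.univ hW
  have hgg : Good fun θ => MvPolynomial.eval₂ σ (x θ) F.g :=
    ⟨contDiff_eval₂ H.hx F.g, H.hg⟩
  have hLg : Good fun θ => ∏ e, lc σ F.c F.a (x θ) e ^ (F.w e + 1) :=
    good_prod Finset.univ fun e => TH577.UA.good_pow (H.good_L e) _
  set F0 : (Fin (s + (d + 1)) → ℝ) → ℂ := fun θ =>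
    (MvPolynomial.eval₂ σ (x θ) F.g * ∏ e, lc σ F.c F.a (x θ) e ^ (F.w e + 1)) / W θ with hF0
  have hF0g : Good F0 := good_div (hgg.mul hLg) hWg
  have pF0 : Per F0 := fun θ i => by
    simp only [hF0, hWdef]
    rw [H.px, H.py]
  have pS : Per fun θ => F.Sv 0 (y θ) := fun θ i => by
    show F.Sv 0 (y (θ + Pi.single i 1)) = _
    rw [H.py]
  have pP : Per fun θ => F.Pv 0 (y θ) := fun θ i => by
    show F.Pv 0 (y (θ + Pi.single i 1)) = _
    rw [H.py]
  obtain ⟨Bd, Λ0, hBd, hΛ0, hroot⟩ := exists_root_torus hF0g pF0 (hSc 0) pS (hPg 0) pP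
  choose δ2 hδ2 hpair2 using fun i : I => hpair i Bd hBd
  obtain ⟨i1, -, hi1⟩ := Finset.exists_min_image Finset.univ δ2
    ⟨Classical.arbitrary I, Finset.mem_univ _⟩
  set δ : ℝ := δ2 i1 with hδ
  have hδpos : 0 < δ := hδ2 i1
  -- bounds for the other entries
  have hfper : ∀ (i : I) (l : Fin (s + (d + 1))), Per fun θ => fent σ F (T' i) (x θ) (y θ) l :=
    fun i l θ j => by
      show fent σ F (T' i) (x (θ + Pi.single j 1)) (y (θ + Pi.single j 1)) l = _
      rw [H.px, H.py]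
  choose Be hBe hBe1 _ using fun (il : I × Fin (s + (d + 1))) =>
    good_bound (H.good_fent (hT' il.1) il.2) (hfper il.1 il.2)
  set M : ℝ := Bd + ∑ il, Be il + 1 with hM
  have hsum : 0 ≤ ∑ il, Be il := Finset.sum_nonneg fun il _ => hBe il
  have hMe : ∀ il, Be il ≤ ∑ il, Be il := fun il =>
    Finset.single_le_sum (fun il _ => hBe il) (Finset.mem_univ il)
  have hMpos : 0 < M := by linarith
  have hexp : 0 < Real.exp (M / δ) := Real.exp_pos _
  refine ⟨Λ0 + Real.exp (M / δ) + 1, by linarith, fun lam hlam => ?_⟩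
  have hln : 0 < ‖σ lam‖ := by linarith
  have hl0 : σ lam ≠ 0 := norm_pos_iff.1 hln
  obtain ⟨z, hz, pz, hzeq, hzd, hzlog, hzlw⟩ := hroot (σ lam) (by linarith)
  set S : ℝ := Real.log ‖σ lam‖ with hSdef
  have hSM : M / δ < S := by
    rw [hSdef, Real.lt_log_iff_exp_lt hln]
    linarith
  have hSpos : 0 < S := lt_trans (by positivity) hSM
  have hMS : M < δ * S := by
    rw [div_lt_iff₀ hδpos] at hSM
    linarith
  have hFv : ∀ θ, F.Fv σ lam (x θ) / W θ = σ lam * F0 θ := fun θ => by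
    simp only [hF0]
    unfold Fib.Fv
    rw [mul_div_assoc]
  have hFv0 : ∀ θ, F.Fv σ lam (x θ) ≠ 0 := fun θ => by
    unfold Fib.Fv
    exact mul_ne_zero hl0 (mul_ne_zero (hgg.ne_zero θ) (hLg.ne_zero θ))
  have hpt := fun θ => isPt_of (F := F) (σ := σ) (lam := lam) (x := x θ) (y := y θ) (z := z θ)
    (hFv0 θ) (fun i => (H.hy i).ne_zero θ) (hz.ne_zero θ) (fun k => H.blk k θ)
    (by
      have h1 := hzeq θ
      rw [← hFv] at h1
      exact h1)
    (by
      have h1 := hzd θ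
      rw [← hFv] at h1
      exact h1)
  choose hp hpd using hpt
  have hyy : Good fun θ => ∏ i, y θ i := good_prod Finset.univ H.hy
  have hFg : Good fun θ => F.Fv σ lam (x θ) :=
    (good_const hl0).mul (hgg.mul hLg)
  have htg : Good fun θ => (z θ * ((∏ i, y θ i) * F.Fv σ lam (x θ)))⁻¹ :=
    good_inv (hz.mul (hyy.mul hFg))
  have hptt : ∀ θ i, (z (θ + Pi.single i 1) * ((∏ j, y (θ + Pi.single i 1) j) *
      F.Fv σ lam (x (θ + Pi.single i 1))))⁻¹ = (z θ * ((∏ i, y θ i) * F.Fv σ lam (x θ)))⁻¹ :=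
    fun θ i => by rw [pz θ i, H.py, H.px]
  set Γ : Torus (F.FRing lam) (s + (d + 1)) := mkTor (F := F) (σ := σ) (lam := lam)
    (t := fun θ => (z θ * ((∏ i, y θ i) * F.Fv σ lam (x θ)))⁻¹) H.hx hyc hz.smooth
    htg.smooth H.px H.py pz hptt hp with hΓ
  refine ⟨Γ, ⟨fun θ r => (hp θ).ev_cst r, fun θ => ⟨Sum.inr (Sum.inr false),
    (fun h => by cases h), hpd θ⟩⟩, fun i => ?_⟩
  rw [Torus.reg_symb, ← det_amat s]
  have hg0 : Γ.fn (F.ent lam (T' i) 0 : F.FRing lam) = z := funext fun θ => (hp θ).ev_uz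
  have hgl : ∀ l : Fin (s + (d + 1)), Γ.fn (F.ent lam (T' i) l.succ : F.FRing lam) =
      fun θ => fent σ F (T' i) (x θ) (y θ) l := fun l => funext fun θ =>
    (hp θ).ev_ent (hT' i) l
  refine hpair2 i _ S hSpos.ne' (fun l => Γ.good _) (fun θ => ?_) (fun j θ => ?_)
    (fun l θ => ?_) fun l j θ => ?_
  · rw [hg0]
    have h1 := hzlog θ
    have e : Real.log ‖z θ‖ / S - 1 = (Real.log ‖z θ‖ - S) / S := by
      field_simp
    rw [e, abs_div, abs_of_pos hSpos, div_lt_iff₀ hSpos]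
    refine lt_of_le_of_lt h1 ?_
    have h2 := hi1 i (Finset.mem_univ i)
    have h3 : δ * S ≤ δ2 i * S := mul_le_mul_of_nonneg_right h2 hSpos.le
    linarith
  · rw [hg0]
    exact hzlw j θ
  · rw [hgl]
    rw [abs_div, abs_of_pos hSpos, div_lt_iff₀ hSpos]
    refine lt_of_le_of_lt (hBe1 (i, l) θ) ?_
    have h2 := hi1 i (Finset.mem_univ i)
    have h3 : δ * S ≤ δ2 i * S := mul_le_mul_of_nonneg_right h2 hSpos.le
    have h4 := hMe (i, l)
    linarith
  · rw [hgl]
    refine lt_of_le_of_lt (H.lw_fent hδ0.le (hT' i) l j θ) ?_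
    have h2 := hi0 i (Finset.mem_univ i)
    linarith

end main

end Pool.Agent.K7.H1.AR
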